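import Mathlib

set_option autoImplicit false

namespace Pool.Agent.Lib.MP5ae207

open MvPolynomial

/-- The polynomial ring with variables `e b` (runs) and `l b` (leader run). -/
abbrev S := MvPolynomial (ℕ ⊕ ℕ) ℚ

noncomputable def e (b : ℕ) : S := X (Sum.inl b)
noncomputable def l (b : ℕ) : S := X (Sum.inr b)

/-- generating series -/
noncomputable def E : PowerSeries S := PowerSeries.mk e
noncomputable def L : PowerSeries S := PowerSeries.mk l

noncomputable abbrev Z : PowerSeries S := PowerSeries.X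

/-- formal derivative in the series variable -/
noncomputable abbrev dz : Derivation S (PowerSeries S) (PowerSeries S) := PowerSeries.derivative S

/-- coefficientwise action of a derivation of `S` on series -/
noncomputable def hat (D : Derivation ℚ S S) (f : PowerSeries S) : PowerSeries S :=
  PowerSeries.mk fun n => D (PowerSeries.coeff n f)

@[simp] lemma coeff_hat (D : Derivation ℚ S S) (f : PowerSeries S) (n : ℕ) :
    PowerSeries.coeff n (hat D f) = D (PowerSeries.coeff n f) := by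
  simp [hat]

lemma hat_add (D : Derivation ℚ S S) (f g : PowerSeries S) :
    hat D (f + g) = hat D f + hat D g := by
  ext1 n; simp

lemma hat_mul (D : Derivation ℚ S S) (f g : PowerSeries S) :
    hat D (f * g) = f * hat D g + g * hat D f := by
  ext1 n
  rw [coeff_hat, PowerSeries.coeff_mul, map_add, PowerSeries.coeff_mul, mul_comm g,
    PowerSeries.coeff_mul, map_sum, ← Finset.sum_add_distrib]
  refine Finset.sum_congr rfl fun p _ => ?_
  rw [Derivation.leibniz, coeff_hat, coeff_hat]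
  simp only [smul_eq_mul]
  ring

lemma hat_Z (D : Derivation ℚ S S) : hat D Z = 0 := by
  ext1 n
  rw [coeff_hat, PowerSeries.coeff_X]
  split_ifs <;> simp

lemma hat_Z_pow (D : Derivation ℚ S S) (j : ℕ) : hat D (Z ^ j) = 0 := by
  ext1 n
  rw [coeff_hat, PowerSeries.coeff_X_pow]
  split_ifs <;> simp

lemma hat_dz (D : Derivation ℚ S S) (f : PowerSeries S) : hat D (dz f) = dz (hat D f) := by
  ext1 n
  rw [coeff_hat, PowerSeries.coeff_derivative, PowerSeries.coeff_derivative, coeff_hat]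
  rw [Derivation.leibniz]
  have : D ((n : S) + 1) = 0 := by simp
  rw [this]
  simp [mul_comm]


lemma coeff_E (b : ℕ) : PowerSeries.coeff b E = e b := by simp [E]
lemma coeff_L (b : ℕ) : PowerSeries.coeff b L = l b := by simp [L]

/-- insertion of a separator -/
noncomputable def dN : Derivation ℚ S S :=
  mkDerivation ℚ (Sum.elim (fun b => PowerSeries.coeff b (E * E))
    (fun x => PowerSeries.coeff x (L * E)))

/-- deletion of an unused point -/
noncomputable def dD : Derivation ℚ S S :=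
  mkDerivation ℚ (Sum.elim (fun b => PowerSeries.coeff b (Z ^ 2 * dz E + Z * E))
    (fun x => PowerSeries.coeff x (Z ^ 2 * dz L + 2 * Z * L)))

noncomputable def dP (j : ℕ) : Derivation ℚ S S :=
  mkDerivation ℚ (Sum.elim (fun b => PowerSeries.coeff b (Z ^ j * L * E)) (fun _ => 0))

noncomputable def dQ (j : ℕ) : Derivation ℚ S S :=
  mkDerivation ℚ (Sum.elim (fun b => PowerSeries.coeff b (Z ^ j * L)) (fun _ => 0))

noncomputable def dR : Derivation ℚ S S :=
  mkDerivation ℚ (Sum.elim (fun b => PowerSeries.coeff b E) (fun _ => 0))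

noncomputable def dM : Derivation ℚ S S :=
  mkDerivation ℚ (Sum.elim (fun b => PowerSeries.coeff b (Z * dz E)) (fun _ => 0))

lemma hat_eq {D : Derivation ℚ S S} {f g : PowerSeries S}
    (h : ∀ b, D (PowerSeries.coeff b f) = PowerSeries.coeff b g) : hat D f = g := by
  ext1 n; rw [coeff_hat, h]

lemma hat_N_E : hat dN E = E * E := hat_eq fun b => by
  rw [coeff_E, e, dN, mkDerivation_X]; rfl
lemma hat_N_L : hat dN L = L * E := hat_eq fun b => by
  rw [coeff_L, l, dN, mkDerivation_X]; rfl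
lemma hat_D_E : hat dD E = Z ^ 2 * dz E + Z * E := hat_eq fun b => by
  rw [coeff_E, e, dD, mkDerivation_X]; rfl
lemma hat_D_L : hat dD L = Z ^ 2 * dz L + 2 * Z * L := hat_eq fun b => by
  rw [coeff_L, l, dD, mkDerivation_X]; rfl
lemma hat_P_E (j : ℕ) : hat (dP j) E = Z ^ j * L * E := hat_eq fun b => by
  rw [coeff_E, e, dP, mkDerivation_X]; rfl
lemma hat_Q_E (j : ℕ) : hat (dQ j) E = Z ^ j * L := hat_eq fun b => by
  rw [coeff_E, e, dQ, mkDerivation_X]; rfl
lemma hat_R_E : hat dR E = E := hat_eq fun b => by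
  rw [coeff_E, e, dR, mkDerivation_X]; exact coeff_E b
lemma hat_M_E : hat dM E = Z * dz E := hat_eq fun b => by
  rw [coeff_E, e, dM, mkDerivation_X]; rfl

/-- the subalgebra of polynomials in the `e` variables only -/
noncomputable abbrev A : Subalgebra ℚ S := supported ℚ (Set.range Sum.inl)

lemma comm_of_gen {D1 D2 D3 : Derivation ℚ S S}
    (h : hat D1 (hat D2 E) = hat D2 (hat D1 E) + hat D3 E) {p : S} (hp : p ∈ A) :
    D1 (D2 p) = D2 (D1 p) + D3 p := by
  have key : ⁅D1, D2⁆ p = D3 p := by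
    refine derivation_eqOn_supported (s := Set.range Sum.inl) ?_ hp
    rintro _ ⟨b, rfl⟩
    have h2 := congrArg (PowerSeries.coeff b) h
    rw [map_add] at h2
    simp only [coeff_hat, coeff_E] at h2
    simp only [Function.comp]
    rw [Derivation.commutator_apply]
    change D1 (D2 (e b)) - D2 (D1 (e b)) = D3 (e b)
    rw [h2]; ring
  rw [Derivation.commutator_apply] at key
  rw [← key]; ring

lemma comm_NP (j : ℕ) {p : S} (hp : p ∈ A) : dN (dP j p) = dP j (dN p) := by
  have h := comm_of_gen (D1 := dN) (D2 := dP j) (D3 := 0) ?_ hp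
  · simpa using h
  · rw [hat_P_E, hat_N_E]
    simp only [hat_mul, hat_Z_pow, hat_N_E, hat_N_L, hat_P_E]
    have : hat (0 : Derivation ℚ S S) E = 0 := by ext1 n; simp
    rw [this]; ring

lemma hat_zero (f : PowerSeries S) : hat (0 : Derivation ℚ S S) f = 0 := by ext1 n; simp

lemma hat_smul (c : ℚ) (D : Derivation ℚ S S) (f : PowerSeries S) :
    hat (c • D) f = PowerSeries.C (MvPolynomial.C c) * hat D f := by
  ext1 n
  rw [coeff_hat, PowerSeries.coeff_C_mul, coeff_hat, Derivation.smul_apply, MvPolynomial.smul_eq_C_mul]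

lemma hat_neg (D : Derivation ℚ S S) (f : PowerSeries S) :
    hat (-D) f = - hat D f := by
  ext1 n
  simp

lemma dz_Z : dz Z = 1 := by
  simp [dz]

lemma Z_dz_pow (j : ℕ) : Z * dz (Z ^ j) = (j : PowerSeries S) * Z ^ j := by
  cases j with
  | zero => simp
  | succ k =>
    rw [Derivation.leibniz_pow, dz_Z]
    simp only [Nat.add_sub_cancel, smul_eq_mul, nsmul_eq_mul, mul_one]
    ring

lemma comm_DP (j : ℕ) {p : S} (hp : p ∈ A) :
    dD (dP j p) = dP j (dD p) + (2 - (j : ℚ)) • dP (j + 1) p := by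
  refine comm_of_gen (D1 := dD) (D2 := dP j) (D3 := (2 - (j : ℚ)) • dP (j + 1)) ?_ hp
  rw [hat_P_E, hat_D_E, hat_smul, hat_P_E]
  simp only [hat_add, hat_mul, hat_Z_pow, hat_Z, hat_dz, hat_D_E, hat_D_L, hat_P_E]
  have h1 := Z_dz_pow j
  simp only [Derivation.leibniz, smul_eq_mul, map_sub, map_natCast, map_ofNat]
  linear_combination (- Z * L * E) * h1

lemma comm_NQ (j : ℕ) {p : S} (hp : p ∈ A) :
    dN (dQ j p) = dQ j (dN p) - dP j p := by
  rw [sub_eq_add_neg]
  refine comm_of_gen (D1 := dN) (D2 := dQ j) (D3 := - dP j) ?_ hp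
  rw [hat_Q_E, hat_N_E, hat_neg, hat_P_E]
  simp only [hat_mul, hat_Z_pow, hat_N_L, hat_Q_E]
  ring

lemma comm_DQ (j : ℕ) {p : S} (hp : p ∈ A) :
    dD (dQ j p) = dQ j (dD p) + (1 - (j : ℚ)) • dQ (j + 1) p := by
  refine comm_of_gen (D1 := dD) (D2 := dQ j) (D3 := (1 - (j : ℚ)) • dQ (j + 1)) ?_ hp
  rw [hat_Q_E, hat_D_E, hat_smul, hat_Q_E]
  simp only [hat_add, hat_mul, hat_Z_pow, hat_Z, hat_dz, hat_D_L, hat_Q_E]
  have h1 := Z_dz_pow j
  simp only [Derivation.leibniz, smul_eq_mul, map_sub, map_natCast, map_one]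
  linear_combination (- Z * L) * h1

lemma comm_RN {p : S} (hp : p ∈ A) : dR (dN p) = dN (dR p) + dN p := by
  refine comm_of_gen (D1 := dR) (D2 := dN) (D3 := dN) ?_ hp
  simp only [hat_N_E, hat_R_E, hat_mul]

lemma comm_RD {p : S} (hp : p ∈ A) : dR (dD p) = dD (dR p) := by
  have h := comm_of_gen (D1 := dR) (D2 := dD) (D3 := 0) ?_ hp
  · simpa using h
  · rw [hat_zero]
    simp only [hat_D_E, hat_R_E, hat_add, hat_mul, hat_Z_pow, hat_Z, hat_dz]
    ring

lemma comm_MN {p : S} (hp : p ∈ A) : dM (dN p) = dN (dM p) := by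
  have h := comm_of_gen (D1 := dM) (D2 := dN) (D3 := 0) ?_ hp
  · simpa using h
  · rw [hat_zero]
    simp only [hat_N_E, hat_M_E, hat_mul, hat_Z, hat_dz]
    simp only [Derivation.leibniz, smul_eq_mul]
    ring

lemma comm_MD {p : S} (hp : p ∈ A) : dM (dD p) = dD (dM p) - dD p := by
  rw [sub_eq_add_neg]
  refine comm_of_gen (D1 := dM) (D2 := dD) (D3 := - dD) ?_ hp
  rw [hat_neg]
  simp only [hat_D_E, hat_M_E, hat_add, hat_mul, hat_Z_pow, hat_Z, hat_dz]
  simp only [Derivation.leibniz, smul_eq_mul, map_add, dz_Z, Derivation.leibniz_pow]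
  simp
  ring

end Pool.Agent.Lib.MP5ae207
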