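import Mathlib
import Pool.Agent.Lib.MP_5ae207_co.Flow

set_option autoImplicit false

namespace Pool.Agent.Lib.MP5ae207

open MvPolynomial

lemma adj_mem {D : Derivation ℚ S S} (h : ∀ b, D (e b) ∈ A) {p : S} (hp : p ∈ A) : D p ∈ A := by
  induction hp using Algebra.adjoin_induction with
  | mem x hx =>
    obtain ⟨_, ⟨b, rfl⟩, rfl⟩ := hx
    exact h b
  | algebraMap r => simp
  | add x y _ _ hx hy => rw [map_add]; exact add_mem hx hy
  | mul x y hx' hy' hx hy =>
    rw [Derivation.leibniz]
    exact add_mem (mul_mem hx' hy) (mul_mem hy' hx)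

lemma e_mem (b : ℕ) : e b ∈ A := by
  rw [e, X_mem_supported]; exact ⟨b, rfl⟩

lemma dN_mem {p : S} (hp : p ∈ A) : dN p ∈ A := by
  refine adj_mem (fun b => ?_) hp
  have : dN (e b) = PowerSeries.coeff b (E * E) := by rw [← hat_N_E, coeff_hat, coeff_E]
  rw [this, PowerSeries.coeff_mul]
  refine sum_mem fun q _ => ?_
  rw [coeff_E, coeff_E]
  exact mul_mem (e_mem _) (e_mem _)

lemma dD_mem {p : S} (hp : p ∈ A) : dD p ∈ A := by
  refine adj_mem (fun b => ?_) hp
  have : dD (e b) = PowerSeries.coeff b (Z ^ 2 * dz E + Z * E) := by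
    rw [← hat_D_E, coeff_hat, coeff_E]
  rw [this, map_add, PowerSeries.coeff_X_pow_mul', Z, ← pow_one PowerSeries.X,
    PowerSeries.coeff_X_pow_mul']
  refine add_mem ?_ ?_
  · split_ifs
    · rw [PowerSeries.coeff_derivative, coeff_E]
      refine mul_mem (e_mem _) (add_mem (natCast_mem _ _) (one_mem _))
    · exact zero_mem _
  · split_ifs
    · rw [coeff_E]; exact e_mem _
    · exact zero_mem _

/-- parity evaluation -/
noncomputable def phi : S →ₐ[ℚ] Polynomial ℚ :=
  aeval (Sum.elim (fun b => if Even b then Polynomial.X else 1) (fun x => if Even x then 1 else 0))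

noncomputable def U : PowerSeries (Polynomial ℚ) := PowerSeries.mk fun x => if Even x then 1 else 0

noncomputable abbrev Y : PowerSeries (Polynomial ℚ) := PowerSeries.X
noncomputable abbrev T : PowerSeries (Polynomial ℚ) := PowerSeries.C Polynomial.X
noncomputable def dy (f : PowerSeries (Polynomial ℚ)) : PowerSeries (Polynomial ℚ) :=
  PowerSeries.derivative (Polynomial ℚ) f

lemma coeff_dy (f : PowerSeries (Polynomial ℚ)) (n : ℕ) :
    PowerSeries.coeff n (dy f) = PowerSeries.coeff (n + 1) f * (n + 1) :=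
  PowerSeries.coeff_derivative f n

lemma dy_mul (f g : PowerSeries (Polynomial ℚ)) : dy (f * g) = f * dy g + g * dy f := by
  simp only [dy, Derivation.leibniz, smul_eq_mul]

lemma dy_add (f g : PowerSeries (Polynomial ℚ)) : dy (f + g) = dy f + dy g := by
  simp only [dy, map_add]

lemma dy_sub (f g : PowerSeries (Polynomial ℚ)) : dy (f - g) = dy f - dy g := by
  simp only [dy, map_sub]

lemma dy_Y : dy Y = 1 := by
  ext1 n
  rw [coeff_dy, PowerSeries.coeff_X, PowerSeries.coeff_one]
  rcases n with _ | n <;> simp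

lemma dy_T : dy T = 0 := by
  ext1 n
  rw [coeff_dy, PowerSeries.coeff_C]
  simp

lemma dy_one : dy 1 = 0 := by
  ext1 n
  rw [coeff_dy, PowerSeries.coeff_one]
  simp

noncomputable abbrev mphi : PowerSeries S →+* PowerSeries (Polynomial ℚ) :=
  PowerSeries.map (phi : S →+* Polynomial ℚ)

lemma U_mul : U * (1 - Y ^ 2) = 1 := by
  rw [mul_sub, mul_one, mul_comm]
  ext1 n
  rw [map_sub, PowerSeries.coeff_X_pow_mul', PowerSeries.coeff_one]
  rcases n with _ | _ | n
  · simp [U]
  · simp [U]
  · have : Even (n + 1 + 1) ↔ Even n := by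
      constructor
      · intro h; simpa [Nat.even_add_one] using h
      · intro h; simpa [Nat.even_add_one] using h
    simp [U, this]

lemma U_dy : dy U = 2 * Y * U ^ 2 := by
  have h := congrArg dy U_mul
  rw [dy_mul, dy_sub, dy_one, sq, dy_mul, dy_Y] at h
  have h1 := U_mul
  linear_combination U * h - dy U * h1

lemma mphi_L : mphi L = U := by
  ext1 n
  rw [PowerSeries.coeff_map, coeff_L, l]
  simp [phi, U]

lemma mphi_E : mphi E = (T + Y) * U := by
  ext1 n
  rw [PowerSeries.coeff_map, coeff_E, e, add_mul, map_add, PowerSeries.coeff_C_mul,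
    Y, ← pow_one PowerSeries.X, PowerSeries.coeff_X_pow_mul']
  simp only [phi, U, RingHom.coe_coe, aeval_X, Sum.elim_inl, PowerSeries.coeff_mk]
  rcases n with _ | n
  · simp
  · by_cases h : Even n
    · have h' : ¬ Even (n + 1) := by simpa [Nat.even_add_one] using h
      simp [h, h']
    · have h' : Even (n + 1) := by simpa [Nat.even_add_one] using h
      simp [h, h']

lemma mphi_dz (f : PowerSeries S) : mphi (dz f) = dy (mphi f) := by
  ext1 n
  rw [PowerSeries.coeff_map, coeff_dy, PowerSeries.coeff_map, PowerSeries.coeff_derivative]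
  simp

lemma mphi_Z : mphi Z = Y := by
  simp [mphi]

/-- maps satisfying the Leibniz rule over `phi` -/
structure IsDer (F : S → Polynomial ℚ) : Prop where
  add : ∀ p q, F (p + q) = F p + F q
  mul : ∀ p q, F (p * q) = phi p * F q + phi q * F p
  const : ∀ c : ℚ, F (algebraMap ℚ S c) = 0

lemma IsDer.ext {F G : S → Polynomial ℚ} (hF : IsDer F) (hG : IsDer G)
    (h : ∀ b, F (e b) = G (e b)) {p : S} (hp : p ∈ A) : F p = G p := by
  induction hp using Algebra.adjoin_induction with
  | mem x hx =>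
    obtain ⟨_, ⟨b, rfl⟩, rfl⟩ := hx
    exact h b
  | algebraMap r => rw [hF.const, hG.const]
  | add x y _ _ hx hy => rw [hF.add, hG.add, hx, hy]
  | mul x y _ _ hx hy => rw [hF.mul, hG.mul, hx, hy]

lemma isDer_phi (D : Derivation ℚ S S) : IsDer (fun p => phi (D p)) where
  add p q := by simp
  mul p q := by simp
  const c := by simp

lemma isDer_deriv : IsDer (fun p => Polynomial.derivative (phi p)) where
  add p q := by simp
  mul p q := by simp [Polynomial.derivative_mul]; ring
  const c := by simp [phi, Polynomial.algebraMap_eq]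

lemma IsDer.add' {F G : S → Polynomial ℚ} (hF : IsDer F) (hG : IsDer G) :
    IsDer (fun p => F p + G p) where
  add p q := by rw [hF.add, hG.add]; ring
  mul p q := by rw [hF.mul, hG.mul]; ring
  const c := by rw [hF.const, hG.const]; ring

lemma IsDer.smul' {F : S → Polynomial ℚ} (a : Polynomial ℚ) (hF : IsDer F) :
    IsDer (fun p => a * F p) where
  add p q := by rw [hF.add]; ring
  mul p q := by rw [hF.mul]; ring
  const c := by rw [hF.const]; ring

lemma phi_D_e (D : Derivation ℚ S S) (b : ℕ) :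
    phi (D (e b)) = PowerSeries.coeff b (mphi (hat D E)) := by
  rw [PowerSeries.coeff_map, coeff_hat, coeff_E]; rfl

lemma deriv_phi_e (b : ℕ) : Polynomial.derivative (phi (e b)) = PowerSeries.coeff b U := by
  simp only [e, phi, aeval_X, Sum.elim_inl, U, PowerSeries.coeff_mk]
  split_ifs <;> simp

lemma mN : mphi (hat dN E) = ((T + Y) * U) * ((T + Y) * U) := by
  rw [hat_N_E, map_mul, mphi_E]
lemma mD : mphi (hat dD E) = Y ^ 2 * dy ((T + Y) * U) + Y * ((T + Y) * U) := by
  rw [hat_D_E, map_add, map_mul, map_mul, map_pow, mphi_dz, mphi_Z, mphi_E]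
lemma mP (j : ℕ) : mphi (hat (dP j) E) = Y ^ j * U * ((T + Y) * U) := by
  rw [hat_P_E, map_mul, map_mul, map_pow, mphi_Z, mphi_E, mphi_L]
lemma mQ (j : ℕ) : mphi (hat (dQ j) E) = Y ^ j * U := by
  rw [hat_Q_E, map_mul, map_pow, mphi_Z, mphi_L]
lemma mR : mphi (hat dR E) = (T + Y) * U := by
  rw [hat_R_E, mphi_E]
lemma mM : mphi (hat dM E) = Y * dy ((T + Y) * U) := by
  rw [hat_M_E, map_mul, mphi_dz, mphi_Z, mphi_E]

lemma id_P2 {p : S} (hp : p ∈ A) :
    2 * phi (dP 2 p) = phi (dM p) + (-1) * phi (dR p) +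
      Polynomial.X * Polynomial.derivative (phi p) := by
  refine IsDer.ext ((isDer_phi _).smul' _)
    (((isDer_phi _).add' ((isDer_phi _).smul' _)).add' (isDer_deriv.smul' _)) (fun b => ?_) hp
  simp only [phi_D_e, deriv_phi_e, mP, mM, mR]
  have key : PowerSeries.C 2 * (Y ^ 2 * U * ((T + Y) * U)) =
      Y * dy ((T + Y) * U) + PowerSeries.C (-1) * ((T + Y) * U) + T * U := by
    rw [dy_mul, dy_add, dy_T, dy_Y, U_dy]
    simp only [map_neg, map_one, map_ofNat]
    ring
  have h := congrArg (PowerSeries.coeff b) key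
  simpa only [map_add, PowerSeries.coeff_C_mul] using h

lemma id_P0 {p : S} (hp : p ∈ A) :
    2 * phi (dP 0 p) = phi (dM p) + phi (dR p) +
      Polynomial.X * Polynomial.derivative (phi p) := by
  refine IsDer.ext ((isDer_phi _).smul' _)
    (((isDer_phi _).add' (isDer_phi _)).add' (isDer_deriv.smul' _)) (fun b => ?_) hp
  simp only [phi_D_e, deriv_phi_e, mP, mM, mR]
  have key : PowerSeries.C 2 * (Y ^ 0 * U * ((T + Y) * U)) =
      Y * dy ((T + Y) * U) + ((T + Y) * U) + T * U := by
    rw [dy_mul, dy_add, dy_T, dy_Y, U_dy]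
    simp only [map_ofNat]
    linear_combination 2 * (T + Y) * U * U_mul
  have h := congrArg (PowerSeries.coeff b) key
  simpa only [map_add, PowerSeries.coeff_C_mul] using h

lemma id_Q0 {p : S} (hp : p ∈ A) :
    phi (dQ 0 p) = Polynomial.derivative (phi p) := by
  refine IsDer.ext (isDer_phi _) isDer_deriv (fun b => ?_) hp
  simp only [phi_D_e, deriv_phi_e, mQ]
  simp

lemma id_Q1 {p : S} (hp : p ∈ A) :
    phi (dQ 1 p) = phi (dR p) + (- Polynomial.X) * Polynomial.derivative (phi p) := by
  refine IsDer.ext (isDer_phi _) ((isDer_phi _).add' (isDer_deriv.smul' _)) (fun b => ?_) hp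
  simp only [phi_D_e, deriv_phi_e, mQ, mR]
  have key : Y ^ 1 * U = (T + Y) * U + PowerSeries.C (- Polynomial.X) * U := by
    simp only [map_neg]
    ring
  have h := congrArg (PowerSeries.coeff b) key
  simpa only [map_add, PowerSeries.coeff_C_mul] using h

lemma id_B (c : ℚ) {p : S} (hp : p ∈ A) :
    Polynomial.C (2 * (c + 3)) * phi (dN p) + Polynomial.C (2 * c) * phi (dD p) +
      Polynomial.C (- (2 * (3 * c + 3))) * phi (dP 1 p) =
    (Polynomial.C (c + 3) * Polynomial.X) * phi (dM p)
      + (Polynomial.C (3 - c) * Polynomial.X) * phi (dR p) +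
      (Polynomial.C (3 * c + 3) * Polynomial.X ^ 2) * Polynomial.derivative (phi p) := by
  refine IsDer.ext ((((isDer_phi _).smul' _).add' ((isDer_phi _).smul' _)).add'
    ((isDer_phi _).smul' _))
    ((((isDer_phi _).smul' _).add' ((isDer_phi _).smul' _)).add' (isDer_deriv.smul' _))
    (fun b => ?_) hp
  simp only [phi_D_e, deriv_phi_e, mP, mM, mR, mN, mD]
  have key : PowerSeries.C (Polynomial.C (2 * (c + 3))) * (((T + Y) * U) * ((T + Y) * U))
      + PowerSeries.C (Polynomial.C (2 * c)) * (Y ^ 2 * dy ((T + Y) * U) + Y * ((T + Y) * U))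
      + PowerSeries.C (Polynomial.C (- (2 * (3 * c + 3)))) * (Y ^ 1 * U * ((T + Y) * U)) =
      PowerSeries.C (Polynomial.C (c + 3) * Polynomial.X) * (Y * dy ((T + Y) * U)) +
      PowerSeries.C (Polynomial.C (3 - c) * Polynomial.X) * ((T + Y) * U)
      + PowerSeries.C (Polynomial.C (3 * c + 3) * Polynomial.X ^ 2) * U := by
    rw [dy_mul, dy_add, dy_T, dy_Y, U_dy]
    set cc : PowerSeries (Polynomial ℚ) := PowerSeries.C (Polynomial.C c) with hcc
    simp only [map_mul, map_add, map_sub, map_neg, map_ofNat, ← hcc, map_pow]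
    linear_combination (U * (T + Y) * (2 * (cc + 3) * T - 4 * cc * Y)) * U_mul
  have h := congrArg (PowerSeries.coeff b) key
  rw [map_add, map_add, map_add, map_add, PowerSeries.coeff_C_mul, PowerSeries.coeff_C_mul,
    PowerSeries.coeff_C_mul, PowerSeries.coeff_C_mul, PowerSeries.coeff_C_mul,
    PowerSeries.coeff_C_mul] at h
  exact h

end Pool.Agent.Lib.MP5ae207
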