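import Mathlib
import Pool.Agent.Lib.MP_5ae207_co.Base

set_option autoImplicit false

namespace Pool.Agent.Lib.MP5ae207

open MvPolynomial

/-! ### Derivations over an arbitrary evaluation -/

structure IsDerOver {B : Type*} [CommRing B] [Algebra ℚ B] (ψ : S →ₐ[ℚ] B) (F : S → B) : Prop where
  add : ∀ p q, F (p + q) = F p + F q
  mul : ∀ p q, F (p * q) = ψ p * F q + ψ q * F p
  const : ∀ c : ℚ, F (algebraMap ℚ S c) = 0

lemma IsDerOver.ext {B : Type*} [CommRing B] [Algebra ℚ B] {ψ : S →ₐ[ℚ] B} {F G : S → B}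
    (hF : IsDerOver ψ F) (hG : IsDerOver ψ G)
    (h : ∀ b, F (e b) = G (e b)) {p : S} (hp : p ∈ A) : F p = G p := by
  induction hp using Algebra.adjoin_induction with
  | mem x hx =>
    obtain ⟨_, ⟨b, rfl⟩, rfl⟩ := hx
    exact h b
  | algebraMap r => rw [hF.const, hG.const]
  | add x y _ _ hx hy => rw [hF.add, hG.add, hx, hy]
  | mul x y _ _ hx hy => rw [hF.mul, hG.mul, hx, hy]

lemma isDerOver_comp {B : Type*} [CommRing B] [Algebra ℚ B] (ψ : S →ₐ[ℚ] B)
    (D : Derivation ℚ S S) : IsDerOver ψ (fun p => ψ (D p)) where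
  add p q := by simp
  mul p q := by simp
  const c := by simp

lemma IsDerOver.add' {B : Type*} [CommRing B] [Algebra ℚ B] {ψ : S →ₐ[ℚ] B} {F G : S → B}
    (hF : IsDerOver ψ F) (hG : IsDerOver ψ G) : IsDerOver ψ (fun p => F p + G p) where
  add p q := by rw [hF.add, hG.add]; ring
  mul p q := by rw [hF.mul, hG.mul]; ring
  const c := by rw [hF.const, hG.const]; ring

lemma IsDerOver.smul' {B : Type*} [CommRing B] [Algebra ℚ B] {ψ : S →ₐ[ℚ] B} {F : S → B}
    (a : B) (hF : IsDerOver ψ F) : IsDerOver ψ (fun p => a * F p) where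
  add p q := by rw [hF.add]; ring
  mul p q := by rw [hF.mul]; ring
  const c := by rw [hF.const]; ring

/-! ### values of the derivations on generators -/

lemma dN_e (b : ℕ) : dN (e b) = ∑ q ∈ Finset.HasAntidiagonal.antidiagonal b, e q.1 * e q.2 := by
  rw [← coeff_E, ← coeff_hat, hat_N_E, PowerSeries.coeff_mul]
  simp [coeff_E]

lemma dR_e (b : ℕ) : dR (e b) = e b := by
  rw [← coeff_E, ← coeff_hat, hat_R_E]

lemma dM_e (b : ℕ) : dM (e b) = (b : ℚ) • e b := by
  rw [← coeff_E, ← coeff_hat, hat_M_E]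
  rcases b with _ | b
  · simp
  · rw [mul_comm, PowerSeries.coeff_succ_mul_X, PowerSeries.coeff_derivative,
      MvPolynomial.smul_eq_C_mul]
    simp [mul_comm]

lemma dD_e (b : ℕ) : dD (e b) = (b : ℚ) • e (b - 1) := by
  rw [← coeff_E, ← coeff_hat, hat_D_E]
  rcases b with _ | b
  · simp
  · have h1 : Z ^ 2 * dz E + Z * E = (Z * dz E + E) * Z := by ring
    rw [h1, PowerSeries.coeff_succ_mul_X, map_add]
    have h2 : PowerSeries.coeff b (Z * dz E) = (b : ℚ) • e b := by
      rw [← hat_M_E, coeff_hat, coeff_E, dM_e]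
    rw [h2, coeff_E]
    simp only [Nat.add_sub_cancel, MvPolynomial.smul_eq_C_mul]
    push_cast
    simp
    ring

lemma dQ0_e (b : ℕ) : dQ 0 (e b) = l b := by
  rw [← coeff_E, ← coeff_hat, hat_Q_E]
  simp [coeff_L]

lemma dP2_e (b : ℕ) : dP 2 (e b) = if 2 ≤ b then ∑ q ∈ Finset.HasAntidiagonal.antidiagonal (b - 2), l q.1 * e q.2
    else 0 := by
  rw [← coeff_E, ← coeff_hat, hat_P_E, mul_assoc, PowerSeries.coeff_X_pow_mul']
  simp [PowerSeries.coeff_mul, coeff_E, coeff_L]

/-! ### the integral functional -/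

noncomputable def J : Polynomial ℚ →ₗ[ℚ] ℚ :=
  Polynomial.lsum (fun n => ((n : ℚ) + 1)⁻¹ • LinearMap.id)

lemma J_monomial (n : ℕ) (a : ℚ) : J (Polynomial.monomial n a) = a / (n + 1) := by
  simp [J, Polynomial.lsum_apply, Polynomial.sum_monomial_index]
  ring

lemma J_deriv (p : Polynomial ℚ) : J (Polynomial.derivative p) = p.eval 1 - p.eval 0 := by
  induction p using Polynomial.induction_on' with
  | add p q hp hq => simp only [map_add, hp, hq, Polynomial.eval_add]; ring
  | monomial n a =>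
    rw [Polynomial.derivative_monomial, J_monomial]
    rcases n with _ | n
    · simp
    · have : ((n : ℚ) + 1) ≠ 0 := by positivity
      simp [this]

/-- Evaluation of all runs at one. -/
noncomputable def ev : S →ₐ[ℚ] ℚ := (Polynomial.aeval (1 : ℚ)).comp phi

lemma ev_apply (p : S) : ev p = (phi p).eval 1 := by
  simp [ev]

lemma ev_e (b : ℕ) : ev (e b) = 1 := by
  rw [ev_apply, phi, e, aeval_X]
  simp only [Sum.elim_inl]
  split_ifs <;> simp

/-- `p` is homogeneous with `R` runs of total length `m` -/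
structure H (R m : ℚ) (p : S) : Prop where
  mem : p ∈ A
  hR : dR p = R • p
  hM : dM p = m • p

lemma H.dN {R m : ℚ} {p : S} (h : H R m p) : H (R + 1) m (dN p) where
  mem := dN_mem h.mem
  hR := by rw [comm_RN h.mem, h.hR, Derivation.map_smul, add_smul, one_smul]
  hM := by rw [comm_MN h.mem, h.hM, Derivation.map_smul]

lemma H.dD {R m : ℚ} {p : S} (h : H R m p) : H R (m - 1) (dD p) where
  mem := dD_mem h.mem
  hR := by rw [comm_RD h.mem, h.hR, Derivation.map_smul]
  hM := by rw [comm_MD h.mem, h.hM, Derivation.map_smul, sub_smul, one_smul]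

lemma ev_dN {R m : ℚ} {p : S} (h : H R m p) : ev (MP5ae207.dN p) = (m + R) * ev p := by
  have := IsDerOver.ext (isDerOver_comp ev MP5ae207.dN)
    ((isDerOver_comp ev dM).add' (isDerOver_comp ev dR)) (fun b => ?_) h.mem
  · rw [this, h.hM, h.hR]; simp; ring
  · simp only [dN_e, dM_e, dR_e, map_sum, map_mul, ev_e, map_smul]
    simp

lemma ev_dD {R m : ℚ} {p : S} (h : H R m p) : ev (MP5ae207.dD p) = m * ev p := by
  have := IsDerOver.ext (isDerOver_comp ev MP5ae207.dD)
    (isDerOver_comp ev dM) (fun b => ?_) h.mem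
  · rw [this, h.hM]; simp
  · simp only [dD_e, dM_e, map_smul, ev_e]

end Pool.Agent.Lib.MP5ae207
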