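import Mathlib
import Pool.Agent.Lib.MP_5ae207_co.Func

set_option autoImplicit false

namespace Pool.Agent.Lib.MP5ae207

open MvPolynomial

lemma J_C_mul (c : ℚ) (q : Polynomial ℚ) : J (Polynomial.C c * q) = c * J q := by
  rw [← Polynomial.smul_eq_C_mul, map_smul, smul_eq_mul]

lemma J_X_deriv (q : Polynomial ℚ) :
    J (Polynomial.X * Polynomial.derivative q) = q.eval 1 - J q := by
  have h := J_deriv (Polynomial.X * q)
  rw [Polynomial.derivative_mul, Polynomial.derivative_X, one_mul, map_add] at h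
  simp only [Polynomial.eval_mul, Polynomial.eval_X] at h
  linarith

/-- The functional built by recursion: `F k R m` is relevant for `m = R + k + 1`. -/
noncomputable def F : ℕ → ℚ → ℚ → (S →ₗ[ℚ] ℚ)
  | 0, _, _ => (2 : ℚ) • (J ∘ₗ phi.toLinearMap)
  | k + 1, R, m => (2 * m + R - 2)⁻¹ •
      ((F k (R + 1) m) ∘ₗ dN.toLinearMap + ((m - 2) / m) • ((F k R (m - 1)) ∘ₗ dD.toLinearMap))

lemma F_zero (R m : ℚ) (p : S) : F 0 R m p = 2 * J (phi p) := by
  simp [F]

lemma F_succ (k : ℕ) (R m : ℚ) (p : S) : F (k + 1) R m p =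
    (2 * m + R - 2)⁻¹ * (F k (R + 1) m (dN p) + ((m - 2) / m) * F k R (m - 1) (dD p)) := by
  simp [F]
  ring

lemma F_succ' (k : ℕ) (R m : ℚ) (p : S) (h : 2 * m + R - 2 ≠ 0) :
    (2 * m + R - 2) * F (k + 1) R m p =
    (F k (R + 1) m (dN p) + ((m - 2) / m) * F k R (m - 1) (dD p)) := by
  rw [F_succ, ← mul_assoc, mul_inv_cancel₀ h, one_mul]

lemma F0_P2 (r' m' : ℚ) {R m : ℚ} {p : S} (h : H R m p) :
    F 0 r' m' (dP 2 p) = (m - R - 1) * J (phi p) + ev p := by
  have h1 := congrArg J (id_P2 h.mem)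
  have e1 : (2 : Polynomial ℚ) = Polynomial.C 2 := (map_ofNat Polynomial.C 2).symm
  have e2 : (-1 : Polynomial ℚ) = Polynomial.C (-1) := by simp
  rw [h.hM, h.hR, map_add, map_add, J_X_deriv, e1, e2, J_C_mul, J_C_mul] at h1
  rw [F_zero, h1, ev_apply]
  simp only [map_smul, smul_eq_mul]
  ring

lemma F0_P0 (r' m' : ℚ) {R m : ℚ} {p : S} (h : H R m p) :
    F 0 r' m' (dP 0 p) = (m + R - 1) * J (phi p) + ev p := by
  have h1 := congrArg J (id_P0 h.mem)
  have e1 : (2 : Polynomial ℚ) = Polynomial.C 2 := (map_ofNat Polynomial.C 2).symm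
  rw [h.hM, h.hR, map_add, map_add, J_X_deriv, e1, J_C_mul] at h1
  rw [F_zero, h1, ev_apply]
  simp only [map_smul, smul_eq_mul]
  ring

lemma F0_Q1 (r' m' : ℚ) {R m : ℚ} {p : S} (h : H R m p) :
    F 0 r' m' (dQ 1 p) = 2 * (R + 1) * J (phi p) - 2 * ev p := by
  have h1 := congrArg J (id_Q1 h.mem)
  rw [h.hR, map_add, neg_mul, map_neg, J_X_deriv] at h1
  rw [F_zero, h1, ev_apply]
  simp only [map_smul, smul_eq_mul]
  ring

lemma F0_Q0 (r' m' : ℚ) {R m : ℚ} {p : S} (h : H R m p) :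
    F 0 r' m' (dQ 0 p) = 2 * (ev p - (phi p).eval 0) := by
  rw [F_zero, id_Q0 h.mem, J_deriv, ev_apply]

/-- auxiliary evaluation: only odd runs survive -/
noncomputable def theta : S →ₐ[ℚ] Polynomial ℚ :=
  aeval (Sum.elim (fun b => if Even b then 0 else Polynomial.X ^ (b - 1)) (fun _ => 0))

noncomputable def psi0 : S →ₐ[ℚ] ℚ := (Polynomial.aeval (0 : ℚ)).comp phi
noncomputable def psi1 : S →ₐ[ℚ] ℚ := (Polynomial.aeval (1 : ℚ)).comp theta

lemma psi_eq {p : S} (hp : p ∈ A) : psi0 p = psi1 p := by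
  induction hp using Algebra.adjoin_induction with
  | mem x hx =>
    obtain ⟨_, ⟨b, rfl⟩, rfl⟩ := hx
    simp only [psi0, psi1, AlgHom.comp_apply, phi, theta, aeval_X, Sum.elim_inl]
    split_ifs <;> simp
  | algebraMap r => simp
  | add x y _ _ hx hy => rw [map_add, map_add, hx, hy]
  | mul x y _ _ hx hy => rw [map_mul, map_mul, hx, hy]

lemma isDerOver_theta :
    IsDerOver theta (fun p => Polynomial.X * Polynomial.derivative (theta p)) where
  add p q := by simp; ring
  mul p q := by simp [Polynomial.derivative_mul]; ring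
  const c := by simp [Polynomial.algebraMap_eq]

lemma theta_id {p : S} (hp : p ∈ A) :
    theta (dM p) = theta (dR p) + Polynomial.X * Polynomial.derivative (theta p) := by
  refine IsDerOver.ext (isDerOver_comp theta dM)
    ((isDerOver_comp theta dR).add' isDerOver_theta) (fun b => ?_) hp
  simp only [dM_e, dR_e, map_smul]
  simp only [theta, e, aeval_X, Sum.elim_inl]
  split_ifs with hb
  · simp
  · rcases b with _ | b
    · simp at hb
    · simp only [Nat.add_sub_cancel, Polynomial.derivative_X_pow, Polynomial.smul_eq_C_mul]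
      rcases b with _ | b
      · simp
      · simp only [Nat.add_sub_cancel]
        push_cast
        simp only [map_add, map_natCast, map_one]
        ring

lemma eval_zero {R m : ℚ} {p : S} (h : H R m p) (hlt : m < R) : (phi p).eval 0 = 0 := by
  have h1 : (phi p).eval 0 = psi0 p := by simp [psi0]
  rw [h1, psi_eq h.mem]
  have h2 := theta_id h.mem
  rw [h.hM, h.hR, map_smul, map_smul] at h2
  have h3 : theta p = 0 := by
    ext n
    have h4 := congrArg (fun q => Polynomial.coeff q n) h2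
    simp only [Polynomial.coeff_smul, Polynomial.coeff_add, smul_eq_mul] at h4
    rcases n with _ | n
    · simp only [Polynomial.mul_coeff_zero, Polynomial.coeff_X_zero, zero_mul, add_zero] at h4
      have : (m - R) * (theta p).coeff 0 = 0 := by linarith
      rcases mul_eq_zero.mp this with h5 | h5
      · linarith
      · simpa using h5
    · rw [Polynomial.coeff_X_mul, Polynomial.coeff_derivative] at h4
      have : (m - R - (n + 1)) * (theta p).coeff (n + 1) = 0 := by linarith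
      rcases mul_eq_zero.mp this with h5 | h5
      · have : (0 : ℚ) ≤ n := by positivity
        linarith
      · simpa using h5
  simp [psi1, h3]

/-- (A): the upper sums are equal to one -/
lemma stepA (k : ℕ) : ∀ (R m : ℚ) (p : S), 1 ≤ R → m = R + k + 1 → H R m p →
    F k R m (dP 2 p) = ev p := by
  induction k with
  | zero =>
    intro R m p hR hm h
    rw [F0_P2 R m h, hm]; simp
  | succ k ih =>
    intro R m p hR hm h
    push_cast at hm
    have hm2 : (2 : ℚ) < m := by
      have : (0 : ℚ) ≤ k := by positivity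
      linarith
    have hne : 2 * m + R - 2 ≠ 0 := by linarith
    have hm0 : m ≠ 0 := by linarith
    have e1 := ih (R + 1) m (dN p) (by linarith) (by rw [hm]; ring) h.dN
    have e2 := ih R (m - 1) (dD p) hR (by rw [hm]; ring) h.dD
    rw [F_succ, comm_NP 2 h.mem, comm_DP 2 h.mem]
    have : (2 - ((2 : ℕ) : ℚ)) = 0 := by norm_num
    rw [this, zero_smul, add_zero, e1, e2, ev_dN h, ev_dD h]
    field_simp
    ring

/-- (***) -/
lemma stepC (k : ℕ) : ∀ (R m : ℚ), 1 ≤ R → m = R + k + 2 → ∃ κ : ℚ, ∀ p : S, H (R + 1) (m - 1) p →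
    F (k + 1) R m (dQ 1 p) = F k (R + 1) m (dP 1 p) + κ * ev p := by
  induction k with
  | zero =>
    intro R m hR hm
    simp only [Nat.cast_zero, add_zero] at hm
    refine ⟨-(R + 1) / (R + 2), fun p h => ?_⟩
    have hne : 2 * m + R - 2 ≠ 0 := by linarith
    have hm0 : m ≠ 0 := by linarith
    have hR2 : R + 2 ≠ 0 := by linarith
    have e1 := F_succ' 0 R m (dQ 1 p) hne
    rw [comm_NQ 1 h.mem, comm_DQ 1 h.mem] at e1
    have : (1 - ((1 : ℕ) : ℚ)) = 0 := by norm_num
    rw [this, zero_smul, add_zero, map_sub, F0_Q1 _ _ h.dN, F0_Q1 _ _ h.dD, ev_dN h, ev_dD h] at e1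
    have h1 := congrArg J (id_B R h.mem)
    rw [h.hM, h.hR] at h1
    have h2 : J (Polynomial.C (R + 3) * Polynomial.X * phi ((m - 1) • p) +
        Polynomial.C (3 - R) * Polynomial.X * phi ((R + 1) • p) +
        Polynomial.C (3 * R + 3) * Polynomial.X ^ 2 * Polynomial.derivative (phi p)) =
        3 * (R + 1) * ev p := by
      have h3 : Polynomial.C (R + 3) * Polynomial.X * phi ((m - 1) • p) +
        Polynomial.C (3 - R) * Polynomial.X * phi ((R + 1) • p) +
        Polynomial.C (3 * R + 3) * Polynomial.X ^ 2 * Polynomial.derivative (phi p) =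
        Polynomial.C (3 * (R + 1)) * Polynomial.derivative (Polynomial.X ^ 2 * phi p) := by
        rw [hm, map_smul, map_smul, Polynomial.smul_eq_C_mul, Polynomial.smul_eq_C_mul,
          Polynomial.derivative_mul, Polynomial.derivative_X_pow]
        simp only [map_add, map_sub, map_mul, map_ofNat, map_one, Nat.cast_ofNat]
        ring
      rw [h3, J_C_mul, J_deriv, ev_apply]
      simp
    rw [h2] at h1
    simp only [map_add, J_C_mul] at h1
    rw [F_zero] at e1 ⊢
    subst hm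
    have hne' : 3 * R + 2 ≠ 0 := by linarith
    have e3 : (3 * R + 2) * F (0 + 1) R (R + 2) (dQ 1 p) =
        (3 * R + 2) * (2 * J (phi (dP 1 p)) + -(R + 1) / (R + 2) * ev p) := by
      have e4 : 2 * (R + 2) + R - 2 = 3 * R + 2 := by ring
      rw [e4] at e1
      rw [e1]
      field_simp
      linear_combination (R + 2) * h1
    exact mul_left_cancel₀ hne' e3
  | succ k ih =>
    intro R m hR hm
    push_cast at hm
    have hk : (0 : ℚ) ≤ k := by positivity
    have hm2 : (2 : ℚ) < m := by linarith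
    have hne : 2 * m + R - 2 ≠ 0 := by linarith
    have hne2 : 2 * m + (R + 1) - 2 ≠ 0 := by linarith
    have hm0 : m ≠ 0 := by linarith
    obtain ⟨κ1, h1⟩ := ih (R + 1) m (by linarith) (by rw [hm]; ring)
    obtain ⟨κ2, h2⟩ := ih R (m - 1) hR (by rw [hm]; ring)
    refine ⟨(κ1 * (m - 1 + (R + 1)) + (m - 2) / m * κ2 * (m - 1) - (m - 2) / m) / (2 * m + R - 2),
      fun p h => ?_⟩
    have e1 := F_succ' (k + 1) R m (dQ 1 p) hne
    rw [comm_NQ 1 h.mem, comm_DQ 1 h.mem] at e1
    have hz : (1 - ((1 : ℕ) : ℚ)) = 0 := by norm_num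
    rw [hz, zero_smul, add_zero, map_sub, h1 _ h.dN, h2 _ h.dD, ev_dN h, ev_dD h] at e1
    have e2 := F_succ' k (R + 1) m (dP 1 p) hne2
    rw [comm_NP 1 h.mem, comm_DP 1 h.mem] at e2
    have hz2 : (2 - ((1 : ℕ) : ℚ)) = 1 := by norm_num
    have e3 := stepA k (R + 1) (m - 1) p (by linarith) (by rw [hm]; ring) h
    rw [hz2, one_smul, map_add] at e2
    have e3' : F k (R + 1) (m - 1) (dP (1 + 1) p) = ev p := e3
    rw [e3'] at e2
    have e4 : (2 * m + R - 2) * F (k + 1 + 1) R m (dQ 1 p) = (2 * m + R - 2) *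
      (F (k + 1) (R + 1) m (dP 1 p) + (κ1 * (m - 1 + (R + 1)) + (m - 2) / m * κ2 * (m - 1)
        - (m - 2) / m) / (2 * m + R - 2) * ev p) := by
      rw [mul_add, ← mul_assoc (2 * m + R - 2) (_ / _), mul_div_cancel₀ _ hne, e1]
      linear_combination - e2
    exact mul_left_cancel₀ hne e4

/-- (*) -/
lemma stepS (k : ℕ) : ∀ (R m : ℚ), 1 ≤ R → m = R + k + 2 → ∃ κ : ℚ, ∀ p : S, H (R + 1) (m - 2) p →
    F k (R + 1) m (dP 0 p) = (m - 2) / m * F k R (m - 1) (dQ 1 p) + κ * ev p := by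
  induction k with
  | zero =>
    intro R m hR hm
    simp only [Nat.cast_zero, add_zero] at hm
    refine ⟨1 + 2 * R / (R + 2), fun p h => ?_⟩
    rw [F0_P0 _ _ h, F0_Q1 _ _ h]
    subst hm
    have hR2 : R + 2 ≠ 0 := by linarith
    field_simp
    ring
  | succ k ih =>
    intro R m hR hm
    push_cast at hm
    have hk : (0 : ℚ) ≤ k := by positivity
    have hm2 : (3 : ℚ) < m := by linarith
    have hne2 : 2 * m + (R + 1) - 2 ≠ 0 := by linarith
    have hne3 : 2 * (m - 1) + R - 2 ≠ 0 := by linarith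
    have hm0 : m ≠ 0 := by linarith
    have hm1 : m - 1 ≠ 0 := by linarith
    obtain ⟨κa, ha⟩ := ih (R + 1) m (by linarith) (by rw [hm]; ring)
    obtain ⟨κb, hb⟩ := ih R (m - 1) hR (by rw [hm]; ring)
    obtain ⟨κc, hc⟩ := stepC k R (m - 1) hR (by rw [hm]; ring)
    refine ⟨(κa * (m - 2 + (R + 1)) + (m - 2) / m * κb * (m - 2) - 3 * ((m - 2) / m) * κc) /
      (2 * m + (R + 1) - 2), fun p h => ?_⟩
    have e1 := F_succ' k (R + 1) m (dP 0 p) hne2
    rw [comm_NP 0 h.mem, comm_DP 0 h.mem] at e1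
    have hz : (2 - ((0 : ℕ) : ℚ)) = 2 := by norm_num
    have hz' : m - 1 - 2 = m - 2 - 1 := by ring
    have hD : H (R + 1) (m - 1 - 2) (dD p) := by rw [hz']; exact h.dD
    rw [hz, map_add, map_smul, ha _ h.dN, hb _ hD, ev_dN h, ev_dD h] at e1
    have e2 := F_succ' k R (m - 1) (dQ 1 p) hne3
    rw [comm_NQ 1 h.mem, comm_DQ 1 h.mem] at e2
    have hz2 : (1 - ((1 : ℕ) : ℚ)) = 0 := by norm_num
    rw [hz2, zero_smul, add_zero, map_sub] at e2
    have hz3 : m - 1 - 1 = m - 2 := by ring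
    have e3 := hc p (by rw [hz3]; exact h)
    simp only [smul_eq_mul, zero_add] at e1
    have e4 : (2 * m + (R + 1) - 2) * F (k + 1) (R + 1) m (dP 0 p) = (2 * m + (R + 1) - 2) *
      ((m - 2) / m * F (k + 1) R (m - 1) (dQ 1 p) +
        (κa * (m - 2 + (R + 1)) + (m - 2) / m * κb * (m - 2) - 3 * ((m - 2) / m) * κc) /
      (2 * m + (R + 1) - 2) * ev p) := by
      rw [mul_add, ← mul_assoc (2 * m + (R + 1) - 2) (_ / (2 * m + (R + 1) - 2)),
        mul_div_cancel₀ _ hne2, e1]
      linear_combination (-(m - 2) / m) * e2 - 3 * ((m - 2) / m) * e3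
    exact mul_left_cancel₀ hne2 e4

/-- (B): the lower sums are constant -/
lemma stepB (k : ℕ) : ∀ (R m : ℚ), 1 ≤ R → m = R + k + 1 → ∃ κ : ℚ, ∀ p : S, H (R + 1) (m - 2) p →
    F k R m (dQ 0 p) = κ * ev p := by
  induction k with
  | zero =>
    intro R m hR hm
    simp only [Nat.cast_zero, add_zero] at hm
    refine ⟨2, fun p h => ?_⟩
    rw [F0_Q0 _ _ h, eval_zero h (by linarith)]
    ring
  | succ k ih =>
    intro R m hR hm
    push_cast at hm
    have hk : (0 : ℚ) ≤ k := by positivity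
    have hm2 : (2 : ℚ) < m := by linarith
    have hne : 2 * m + R - 2 ≠ 0 := by linarith
    have hm0 : m ≠ 0 := by linarith
    obtain ⟨κ1, h1⟩ := ih (R + 1) m (by linarith) (by rw [hm]; ring)
    obtain ⟨κ2, h2⟩ := ih R (m - 1) hR (by rw [hm]; ring)
    obtain ⟨κ3, h3⟩ := stepS k R m hR (by rw [hm]; ring)
    refine ⟨(κ1 * (m - 2 + (R + 1)) + (m - 2) / m * κ2 * (m - 2) - κ3) / (2 * m + R - 2),
      fun p h => ?_⟩
    have e1 := F_succ' k R m (dQ 0 p) hne
    rw [comm_NQ 0 h.mem, comm_DQ 0 h.mem] at e1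
    have hz : (1 - ((0 : ℕ) : ℚ)) = 1 := by norm_num
    have hz' : m - 1 - 2 = m - 2 - 1 := by ring
    have hD : H (R + 1) (m - 1 - 2) (dD p) := by rw [hz']; exact h.dD
    rw [hz, one_smul, map_sub, map_add, h1 _ h.dN, h2 _ hD, ev_dN h, ev_dD h] at e1
    have e3 := h3 p h
    simp only [zero_add] at e1
    have e4 : (2 * m + R - 2) * F (k + 1) R m (dQ 0 p) = (2 * m + R - 2) *
      ((κ1 * (m - 2 + (R + 1)) + (m - 2) / m * κ2 * (m - 2) - κ3) / (2 * m + R - 2) * ev p) := by
      rw [← mul_assoc (2 * m + R - 2) (_ / (2 * m + R - 2)), mul_div_cancel₀ _ hne, e1]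
      linear_combination - e3
    exact mul_left_cancel₀ hne e4

end Pool.Agent.Lib.MP5ae207
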