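import Mathlib
import Pool.Agent.Lib.MP_5ae207_co.Main

set_option autoImplicit false

namespace Pool.Agent.Lib.MP5ae207

open MvPolynomial

/-- the cone of polynomials with nonnegative coefficients (as a generated semiring) -/
noncomputable def cone : Subsemiring S :=
  Subsemiring.closure (Set.range (X : ℕ ⊕ ℕ → S) ∪ {q | ∃ c : ℚ, 0 ≤ c ∧ q = C c})

def coneP : Subsemiring (Polynomial ℚ) where
  carrier := {q | ∀ n, 0 ≤ q.coeff n}
  mul_mem' := by
    intro a b ha hb n
    rw [Polynomial.coeff_mul]
    exact Finset.sum_nonneg fun x _ => mul_nonneg (ha _) (hb _)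
  one_mem' := by
    intro n
    rw [Polynomial.coeff_one]
    split_ifs <;> norm_num
  add_mem' := by
    intro a b ha hb n
    rw [Polynomial.coeff_add]
    exact add_nonneg (ha n) (hb n)
  zero_mem' := by intro n; simp

lemma X_mem_cone (i : ℕ ⊕ ℕ) : (X i : S) ∈ cone := Subsemiring.subset_closure (Or.inl ⟨i, rfl⟩)
lemma C_mem_cone {c : ℚ} (hc : 0 ≤ c) : (C c : S) ∈ cone :=
  Subsemiring.subset_closure (Or.inr ⟨c, hc, rfl⟩)
lemma e_mem_cone (b : ℕ) : e b ∈ cone := X_mem_cone _
lemma l_mem_cone (b : ℕ) : l b ∈ cone := X_mem_cone _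

lemma der_cone {D : Derivation ℚ S S} (h : ∀ i, D (X i) ∈ cone) {p : S} (hp : p ∈ cone) :
    D p ∈ cone := by
  induction hp using Subsemiring.closure_induction with
  | mem x hx =>
    rcases hx with ⟨i, rfl⟩ | ⟨c, _, rfl⟩
    · exact h i
    · rw [derivation_C]; exact zero_mem _
  | zero => rw [map_zero]; exact zero_mem _
  | one => simp
  | add x y _ _ hx hy => rw [map_add]; exact add_mem hx hy
  | mul x y hx' hy' hx hy =>
    rw [Derivation.leibniz]
    exact add_mem (mul_mem hx' hy) (mul_mem hy' hx)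

lemma nat_mul_mem_cone (n : ℕ) {p : S} (hp : p ∈ cone) : (n : ℚ) • p ∈ cone := by
  rw [MvPolynomial.smul_eq_C_mul]; exact mul_mem (C_mem_cone (by positivity)) hp

lemma dN_cone {p : S} (hp : p ∈ cone) : dN p ∈ cone := by
  refine der_cone (fun i => ?_) hp
  rcases i with b | x
  · have : dN (X (Sum.inl b)) = dN (e b) := rfl
    rw [this, dN_e]
    exact sum_mem fun q _ => mul_mem (e_mem_cone _) (e_mem_cone _)
  · rw [dN, mkDerivation_X, Sum.elim_inr, PowerSeries.coeff_mul]
    refine sum_mem fun q _ => ?_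
    rw [coeff_L, coeff_E]
    exact mul_mem (l_mem_cone _) (e_mem_cone _)

lemma dD_cone {p : S} (hp : p ∈ cone) : dD p ∈ cone := by
  refine der_cone (fun i => ?_) hp
  rcases i with b | x
  · have : dD (X (Sum.inl b)) = dD (e b) := rfl
    rw [this, dD_e]
    exact nat_mul_mem_cone _ (e_mem_cone _)
  · rw [dD, mkDerivation_X, Sum.elim_inr]
    have h1 : Z ^ 2 * dz L + 2 * Z * L = (Z * dz L + (L + L)) * Z := by ring
    rw [h1]
    rcases x with _ | x
    · simp
    · rw [PowerSeries.coeff_succ_mul_X, map_add, map_add, coeff_L]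
      refine add_mem ?_ (add_mem (l_mem_cone _) (l_mem_cone _))
      rcases x with _ | x
      · simp
      · rw [mul_comm, PowerSeries.coeff_succ_mul_X, PowerSeries.coeff_derivative, coeff_L]
        exact mul_mem (l_mem_cone _) (add_mem (natCast_mem _ _) (one_mem _))

lemma phi_cone {p : S} (hp : p ∈ cone) : phi p ∈ coneP := by
  induction hp using Subsemiring.closure_induction with
  | mem x hx =>
    rcases hx with ⟨i, rfl⟩ | ⟨c, hc, rfl⟩
    · have hX : (Polynomial.X : Polynomial ℚ) ∈ coneP := by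
        intro n; rw [Polynomial.coeff_X]; split_ifs <;> norm_num
      rw [phi, aeval_X]
      rcases i with b | x
      · simp only [Sum.elim_inl]
        split_ifs
        · exact hX
        · exact one_mem _
      · simp only [Sum.elim_inr]
        split_ifs
        · exact one_mem _
        · exact zero_mem _
    · intro n
      have : phi (C c) = Polynomial.C c := by simp [phi]
      rw [this, Polynomial.coeff_C]
      split_ifs
      · exact hc
      · exact le_refl _
  | zero => rw [map_zero]; exact zero_mem _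
  | one => rw [map_one]; exact one_mem _
  | add x y _ _ hx hy => rw [map_add]; exact add_mem hx hy
  | mul x y _ _ hx hy => rw [map_mul]; exact mul_mem hx hy

lemma J_nonneg {q : Polynomial ℚ} (hq : q ∈ coneP) : 0 ≤ J q := by
  rw [J, Polynomial.lsum_apply, Polynomial.sum_def]
  refine Finset.sum_nonneg fun n _ => ?_
  have := hq n
  simp only [LinearMap.smul_apply, LinearMap.id_apply, smul_eq_mul]
  positivity

lemma F_nonneg (k : ℕ) : ∀ (R m : ℚ) (p : S), 1 ≤ R → m = R + k + 1 → p ∈ cone →
    0 ≤ F k R m p := by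
  induction k with
  | zero =>
    intro R m p _ _ hp
    rw [F_zero]
    have := J_nonneg (phi_cone hp)
    linarith
  | succ k ih =>
    intro R m p hR hm hp
    push_cast at hm
    have hk : (0 : ℚ) ≤ k := by positivity
    have hm2 : (2 : ℚ) < m := by linarith
    rw [F_succ]
    have h1 := ih (R + 1) m (dN p) (by linarith) (by rw [hm]; ring) (dN_cone hp)
    have h2 := ih R (m - 1) (dD p) hR (by rw [hm]; ring) (dD_cone hp)
    have h3 : 0 ≤ (m - 2) / m := div_nonneg (by linarith) (by linarith)
    have h4 : 0 ≤ (2 * m + R - 2)⁻¹ := inv_nonneg.mpr (by linarith)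
    exact mul_nonneg h4 (add_nonneg h1 (mul_nonneg h3 h2))

/-- product of run variables -/
noncomputable def pr (a : List ℕ) : S := (a.map e).prod

@[simp] lemma pr_nil : pr [] = 1 := rfl
@[simp] lemma pr_cons (x : ℕ) (a : List ℕ) : pr (x :: a) = e x * pr a := by simp [pr]
@[simp] lemma pr_append (a b : List ℕ) : pr (a ++ b) = pr a * pr b := by simp [pr]

lemma pr_mem_cone (a : List ℕ) : pr a ∈ cone := by
  induction a with
  | nil => exact one_mem _
  | cons x a ih => rw [pr_cons]; exact mul_mem (e_mem_cone _) ih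

lemma pr_mem_A (a : List ℕ) : pr a ∈ A := by
  induction a with
  | nil => exact one_mem _
  | cons x a ih => rw [pr_cons]; exact mul_mem (e_mem _) ih

lemma ev_pr (a : List ℕ) : ev (pr a) = 1 := by
  induction a with
  | nil => simp
  | cons x a ih => rw [pr_cons, map_mul, ih, ev_e, one_mul]

lemma H_pr (a : List ℕ) : H a.length a.sum (pr a) where
  mem := pr_mem_A a
  hR := by
    induction a with
    | nil => simp
    | cons x a ih =>
      rw [pr_cons, Derivation.leibniz, ih, dR_e]
      simp only [smul_eq_mul, List.length_cons, MvPolynomial.smul_eq_C_mul]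
      push_cast
      simp only [map_add, map_one]
      ring
  hM := by
    induction a with
    | nil => simp
    | cons x a ih =>
      rw [pr_cons, Derivation.leibniz, ih, dM_e]
      simp only [smul_eq_mul, List.sum_cons, MvPolynomial.smul_eq_C_mul]
      push_cast
      simp only [map_add]
      ring

/-- Existence of the exchangeable flow. -/
theorem exists_flow (R m : ℕ) (hR : 1 ≤ R) (hm : R + 1 ≤ m) :
    ∃ (G : S →ₗ[ℚ] ℚ) (c : ℚ), (∀ p ∈ cone, 0 ≤ G p) ∧
      (∀ a : List ℕ, a.length = R → a.sum = m → G (dP 2 (pr a)) = 1) ∧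
      (∀ b : List ℕ, b.length = R + 1 → b.sum + 2 = m → G (dQ 0 (pr b)) = c) := by
  obtain ⟨k, rfl⟩ : ∃ k, m = R + k + 1 := ⟨m - R - 1, by omega⟩
  have hR' : (1 : ℚ) ≤ R := by exact_mod_cast hR
  have hmk : ((R + k + 1 : ℕ) : ℚ) = (R : ℚ) + k + 1 := by push_cast; ring
  obtain ⟨κ, hκ⟩ := stepB k R ((R + k + 1 : ℕ) : ℚ) hR' hmk
  refine ⟨F k R ((R + k + 1 : ℕ) : ℚ), κ, fun p hp => F_nonneg k _ _ p hR' hmk hp, ?_, ?_⟩
  · intro a ha hs
    rw [stepA k R _ (pr a) hR' hmk, ev_pr]
    have := H_pr a
    rw [ha, hs] at this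
    exact this
  · intro b hb hs
    rw [hκ (pr b), ev_pr, mul_one]
    have := H_pr b
    rw [hb] at this
    have h2 : ((R + k + 1 : ℕ) : ℚ) - 2 = (b.sum : ℚ) := by
      rw [← hs]; push_cast; ring
    rw [h2]
    have h3 : ((R + 1 : ℕ) : ℚ) = (R : ℚ) + 1 := by push_cast; ring
    rw [h3] at this
    exact this

end Pool.Agent.Lib.MP5ae207
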