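import Mathlib
import Pool.Agent.Lib.MP_5ae207_co.Pos

set_option autoImplicit false

namespace Pool.Agent.Lib.MP5ae207

open MvPolynomial

lemma der_pr (D : Derivation ℚ S S) (a : List ℕ) :
    D (pr a) = ∑ i ∈ Finset.range a.length,
      D (e (a.getD i 0)) * (pr (a.take i) * pr (a.drop (i + 1))) := by
  induction a with
  | nil => simp
  | cons x a ih =>
    rw [pr_cons, Derivation.leibniz, ih, List.length_cons, Finset.sum_range_succ']
    simp only [smul_eq_mul, List.getD_cons_succ, List.take_succ_cons, List.drop_succ_cons,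
      pr_cons, List.getD_cons_zero, List.take_zero, pr_nil, one_mul, List.drop_zero]
    rw [Finset.mul_sum]
    congr 1
    · refine Finset.sum_congr rfl fun i _ => ?_
      ring
    · rw [mul_comm]

/-- lists of naturals of given length and sum -/
def LL : ℕ → ℕ → Finset (List ℕ)
  | 0, m => if m = 0 then {[]} else ∅
  | R + 1, m => (Finset.HasAntidiagonal.antidiagonal m).biUnion fun p =>
      (LL R p.2).image (fun a => p.1 :: a)

lemma mem_LL {R m : ℕ} {a : List ℕ} : a ∈ LL R m ↔ a.length = R ∧ a.sum = m := by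
  induction R generalizing m a with
  | zero =>
    simp only [LL]
    split_ifs with h
    · subst h
      rw [Finset.mem_singleton, List.length_eq_zero_iff]
      constructor
      · rintro rfl; simp
      · rintro ⟨h, _⟩; exact h
    · simp only [Finset.notMem_empty, false_iff, not_and, List.length_eq_zero_iff]
      rintro rfl h2
      exact h (by simpa using h2.symm)
  | succ R ih =>
    simp only [LL, Finset.mem_biUnion, Finset.mem_image,
      Finset.HasAntidiagonal.mem_antidiagonal]
    constructor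
    · rintro ⟨⟨x, y⟩, h, b, hb, rfl⟩
      rw [ih] at hb
      simp only [List.length_cons, List.sum_cons]
      simp only at h hb
      omega
    · rintro ⟨h1, h2⟩
      rcases a with _ | ⟨x, a⟩
      · simp at h1
      · simp only [List.length_cons, List.sum_cons] at h1 h2
        exact ⟨(x, a.sum), h2, a, ih.mpr ⟨by omega, rfl⟩, rfl⟩

/-- value at leader position `j` -/
noncomputable def gl (G : S →ₗ[ℚ] ℚ) (b : List ℕ) (j : ℕ) : ℚ :=
  G (l (b.getD j 0) * (pr (b.take j) * pr (b.drop (j + 1))))

/-- weight of the merge at position `i` -/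
noncomputable def wt (R : ℕ) (G : S →ₗ[ℚ] ℚ) (b : List ℕ) (i : ℕ) : ℚ :=
  ((R : ℚ) - i) * gl G b i + ((i : ℚ) + 1) * gl G b (i + 1)

/-- merging -/
def mg (b : List ℕ) (i : ℕ) : List ℕ :=
  b.take i ++ (b.getD i 0 + b.getD (i + 1) 0 + 2) :: b.drop (i + 2)

/-- splitting -/
def sp (a : List ℕ) (i x y : ℕ) : List ℕ :=
  a.take i ++ x :: y :: a.drop (i + 1)

lemma gl_nonneg {G : S →ₗ[ℚ] ℚ} (hG : ∀ p ∈ cone, 0 ≤ G p) (b : List ℕ) (j : ℕ) :
    0 ≤ gl G b j :=
  hG _ (mul_mem (l_mem_cone _) (mul_mem (pr_mem_cone _) (pr_mem_cone _)))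

lemma wt_nonneg {G : S →ₗ[ℚ] ℚ} (hG : ∀ p ∈ cone, 0 ≤ G p) {R i : ℕ} (hi : i < R) (b : List ℕ) :
    0 ≤ wt R G b i := by
  have : (i : ℚ) ≤ R := by exact_mod_cast hi.le
  have h1 := gl_nonneg hG b i
  have h2 := gl_nonneg hG b (i + 1)
  have h3 : (0 : ℚ) ≤ (R : ℚ) - i := by linarith
  unfold wt
  positivity

lemma sum_wt (R : ℕ) (G : S →ₗ[ℚ] ℚ) (b : List ℕ) (hb : b.length = R + 1) :
    ∑ i ∈ Finset.range R, wt R G b i = R * G (dQ 0 (pr b)) := by
  have h1 : G (dQ 0 (pr b)) = ∑ j ∈ Finset.range (R + 1), gl G b j := by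
    rw [der_pr, map_sum, hb]
    refine Finset.sum_congr rfl fun j _ => ?_
    rw [dQ0_e]; rfl
  have h2 : ∑ i ∈ Finset.range (R + 1), ((R : ℚ) - i) * gl G b i =
      ∑ i ∈ Finset.range R, ((R : ℚ) - i) * gl G b i := by
    rw [Finset.sum_range_succ]; simp
  have h3 : ∑ i ∈ Finset.range (R + 1), (i : ℚ) * gl G b i =
      ∑ i ∈ Finset.range R, ((i : ℚ) + 1) * gl G b (i + 1) := by
    rw [Finset.sum_range_succ']; simp
  rw [h1]
  unfold wt
  rw [Finset.sum_add_distrib, ← h2, ← h3, ← Finset.sum_add_distrib, Finset.mul_sum]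
  refine Finset.sum_congr rfl fun j _ => ?_
  ring

lemma take_sp {a : List ℕ} {i x y : ℕ} (hi : i < a.length) : (sp a i x y).take i = a.take i := by
  have : (a.take i).length = i := by simp; omega
  unfold sp
  rw [List.take_append_of_le_length (by omega), List.take_of_length_le (by omega)]

lemma getD_sp {a : List ℕ} {i x y : ℕ} (hi : i < a.length) : (sp a i x y).getD i 0 = x := by
  have : (a.take i).length = i := by simp; omega
  unfold sp
  rw [List.getD_append_right _ _ _ _ (by omega)]
  simp [this]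

lemma getD_sp' {a : List ℕ} {i x y : ℕ} (hi : i < a.length) :
    (sp a i x y).getD (i + 1) 0 = y := by
  have : (a.take i).length = i := by simp; omega
  unfold sp
  rw [List.getD_append_right _ _ _ _ (by omega)]
  simp [this]

lemma drop_sp {a : List ℕ} {i x y : ℕ} (hi : i < a.length) :
    (sp a i x y).drop (i + 1) = y :: a.drop (i + 1) := by
  have : (a.take i).length = i := by simp; omega
  unfold sp
  rw [List.drop_append, this]
  simp [this]

lemma drop_sp' {a : List ℕ} {i x y : ℕ} (hi : i < a.length) :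
    (sp a i x y).drop (i + 2) = a.drop (i + 1) := by
  have h := drop_sp (x := x) (y := y) hi
  have : (sp a i x y).drop (i + 2) = ((sp a i x y).drop (i + 1)).drop 1 := by
    rw [List.drop_drop]
  rw [this, h]; simp

lemma take_sp' {a : List ℕ} {i x y : ℕ} (hi : i < a.length) :
    (sp a i x y).take (i + 1) = a.take i ++ [x] := by
  have h1 : (a.take i).length = i := by simp; omega
  unfold sp
  rw [List.take_append, h1, List.take_of_length_le (by omega)]
  simp

lemma split_at {a : List ℕ} {i : ℕ} (hi : i < a.length) :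
    a = a.take i ++ a.getD i 0 :: a.drop (i + 1) := by
  rw [List.getD_eq_getElem _ _ hi, ← List.drop_eq_getElem_cons hi, List.take_append_drop]

lemma mg_sp {a : List ℕ} {i x y : ℕ} (hi : i < a.length) (h : x + y + 2 = a.getD i 0) :
    mg (sp a i x y) i = a := by
  unfold mg
  rw [take_sp hi, getD_sp hi, getD_sp' hi, drop_sp' hi, h, ← split_at hi]

lemma take_mg {b : List ℕ} {i : ℕ} (hi : i < b.length) : (mg b i).take i = b.take i := by
  have : (b.take i).length = i := by simp; omega
  unfold mg
  rw [List.take_append_of_le_length (by omega), List.take_of_length_le (by omega)]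

lemma getD_mg {b : List ℕ} {i : ℕ} (hi : i < b.length) :
    (mg b i).getD i 0 = b.getD i 0 + b.getD (i + 1) 0 + 2 := by
  have : (b.take i).length = i := by simp; omega
  unfold mg
  rw [List.getD_append_right _ _ _ _ (by omega)]
  simp [this]

lemma drop_mg {b : List ℕ} {i : ℕ} (hi : i < b.length) :
    (mg b i).drop (i + 1) = b.drop (i + 2) := by
  have : (b.take i).length = i := by simp; omega
  unfold mg
  rw [List.drop_append, this]
  simp [this]

lemma sp_mg {b : List ℕ} {i : ℕ} (hi : i + 1 < b.length) :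
    sp (mg b i) i (b.getD i 0) (b.getD (i + 1) 0) = b := by
  unfold sp
  rw [take_mg (by omega), drop_mg (by omega)]
  have h1 := split_at (a := b) (i := i) (by omega)
  have h2 : b.drop (i + 1) = b.getD (i + 1) 0 :: b.drop (i + 2) := by
    rw [List.getD_eq_getElem _ _ hi, ← List.drop_eq_getElem_cons hi]
  rw [← h2, ← h1]

lemma length_mg {b : List ℕ} {i : ℕ} (hi : i + 1 < b.length) : (mg b i).length + 1 = b.length := by
  unfold mg
  simp
  omega

lemma sum_mg {b : List ℕ} {i : ℕ} (hi : i + 1 < b.length) : (mg b i).sum = b.sum + 2 := by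
  have h1 := sp_mg hi
  conv_rhs => rw [← h1]
  unfold sp
  rw [take_mg (by omega), drop_mg (by omega)]
  unfold mg
  simp only [List.sum_append, List.sum_cons]
  ring

lemma length_sp {a : List ℕ} {i x y : ℕ} (hi : i < a.length) :
    (sp a i x y).length = a.length + 1 := by
  unfold sp
  simp
  omega

lemma sum_sp {a : List ℕ} {i x y : ℕ} (hi : i < a.length) (h : x + y + 2 = a.getD i 0) :
    (sp a i x y).sum + 2 = a.sum := by
  conv_rhs => rw [split_at hi]
  unfold sp
  simp only [List.sum_append, List.sum_cons]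
  omega

lemma gl_sp (G : S →ₗ[ℚ] ℚ) {a : List ℕ} {i x y : ℕ} (hi : i < a.length) :
    gl G (sp a i x y) i = G (l x * e y * (pr (a.take i) * pr (a.drop (i + 1)))) := by
  unfold gl
  rw [getD_sp hi, take_sp hi, drop_sp hi, pr_cons]
  congr 1; ring

lemma gl_sp' (G : S →ₗ[ℚ] ℚ) {a : List ℕ} {i x y : ℕ} (hi : i < a.length) :
    gl G (sp a i x y) (i + 1) = G (l y * e x * (pr (a.take i) * pr (a.drop (i + 1)))) := by
  unfold gl
  rw [getD_sp' hi, take_sp' hi, drop_sp' hi, pr_append, pr_cons, pr_nil]
  congr 1; ring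

lemma fiber_sum (G : S →ₗ[ℚ] ℚ) {R m : ℕ} {a : List ℕ} (ha : a.length = R) (hs : a.sum = m)
    {i : ℕ} (hi : i < R) :
    ∑ b ∈ (LL (R + 1) (m - 2)).filter (fun b => mg b i = a), wt R G b i =
      (R + 1) * G (dP 2 (e (a.getD i 0)) * (pr (a.take i) * pr (a.drop (i + 1)))) := by
  rw [dP2_e]
  split_ifs with h2
  · have key : ∑ b ∈ (LL (R + 1) (m - 2)).filter (fun b => mg b i = a), wt R G b i =
        ∑ q ∈ Finset.HasAntidiagonal.antidiagonal (a.getD i 0 - 2), wt R G (sp a i q.1 q.2) i := by
      symm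
      refine Finset.sum_nbij' (fun q => sp a i q.1 q.2) (fun b => (b.getD i 0, b.getD (i + 1) 0))
        ?_ ?_ ?_ ?_ ?_
      · intro q hq
        rw [Finset.HasAntidiagonal.mem_antidiagonal] at hq
        have h3 : q.1 + q.2 + 2 = a.getD i 0 := by omega
        rw [Finset.mem_filter, mem_LL]
        have h4 := sum_sp (a := a) (i := i) (by omega) h3
        exact ⟨⟨by rw [length_sp (by omega), ha], by omega⟩, mg_sp (by omega) h3⟩
      · intro b hb
        rw [Finset.mem_filter, mem_LL] at hb
        rw [Finset.HasAntidiagonal.mem_antidiagonal]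
        obtain ⟨⟨h3, h4⟩, rfl⟩ := hb
        rw [getD_mg (by omega)]
        simp
      · intro q hq
        rw [getD_sp (by omega), getD_sp' (by omega)]
      · intro b hb
        rw [Finset.mem_filter, mem_LL] at hb
        obtain ⟨⟨h3, h4⟩, rfl⟩ := hb
        simp only
        exact sp_mg (by omega)
      · intro q hq
        rfl
    rw [key, Finset.sum_mul, map_sum, Finset.mul_sum]
    unfold wt
    rw [Finset.sum_add_distrib]
    have h5 : ∀ q : ℕ × ℕ, gl G (sp a i q.1 q.2) i =
      G (l q.1 * e q.2 * (pr (a.take i) * pr (a.drop (i + 1)))) := fun q => gl_sp G (by omega)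
    have h6 : ∀ q : ℕ × ℕ, gl G (sp a i q.1 q.2) (i + 1) =
      G (l q.2 * e q.1 * (pr (a.take i) * pr (a.drop (i + 1)))) := fun q => gl_sp' G (by omega)
    simp only [h5, h6]
    rw [← Finset.Nat.sum_antidiagonal_swap (f := fun q : ℕ × ℕ => ((i : ℚ) + 1) *
      G (l q.2 * e q.1 * (pr (a.take i) * pr (a.drop (i + 1)))))]
    rw [← Finset.sum_add_distrib]
    refine Finset.sum_congr rfl fun q _ => ?_
    simp only [Prod.fst_swap, Prod.snd_swap]
    ring
  · rw [zero_mul, map_zero, mul_zero]
    refine Finset.sum_eq_zero fun b hb => ?_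
    rw [Finset.mem_filter, mem_LL] at hb
    obtain ⟨⟨h3, h4⟩, rfl⟩ := hb
    rw [getD_mg (by omega)] at h2
    omega

end Pool.Agent.Lib.MP5ae207
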