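import Mathlib
import Pool.Agent.Lib.MP_5ae207_co.Lists

set_option autoImplicit false

namespace Pool.Agent.Lib.MP5ae207

open MvPolynomial Classical

lemma double_sum (R m : ℕ) (G : S →ₗ[ℚ] ℚ)
    (hA : ∀ a : List ℕ, a.length = R → a.sum = m → G (dP 2 (pr a)) = 1)
    (𝓕 : Finset (List ℕ)) (hF : 𝓕 ⊆ LL R m) :
    ∑ i ∈ Finset.range R, ∑ b ∈ (LL (R + 1) (m - 2)).filter (fun b => mg b i ∈ 𝓕), wt R G b i =
      (R + 1) * 𝓕.card := by
  have h1 : ∀ i, ∑ b ∈ (LL (R + 1) (m - 2)).filter (fun b => mg b i ∈ 𝓕), wt R G b i =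
      ∑ a ∈ 𝓕, ∑ b ∈ (LL (R + 1) (m - 2)).filter (fun b => mg b i = a), wt R G b i := by
    intro i
    rw [← Finset.sum_fiberwise_of_maps_to (t := 𝓕) (g := fun b => mg b i)]
    · refine Finset.sum_congr rfl fun a ha => ?_
      refine Finset.sum_congr ?_ fun _ _ => rfl
      ext b
      simp only [Finset.mem_filter]
      constructor
      · rintro ⟨⟨h1, _⟩, h3⟩; exact ⟨h1, h3⟩
      · rintro ⟨h1, h3⟩; exact ⟨⟨h1, h3 ▸ ha⟩, h3⟩
    · intro b hb
      exact (Finset.mem_filter.mp hb).2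
  simp only [h1]
  rw [Finset.sum_comm]
  have h2 : ∀ a ∈ 𝓕, ∑ i ∈ Finset.range R,
      ∑ b ∈ (LL (R + 1) (m - 2)).filter (fun b => mg b i = a), wt R G b i = (R : ℚ) + 1 := by
    intro a ha
    obtain ⟨ha1, ha2⟩ := mem_LL.mp (hF ha)
    have h3 : ∀ i ∈ Finset.range R, ∑ b ∈ (LL (R + 1) (m - 2)).filter (fun b => mg b i = a),
        wt R G b i =
      (R + 1) * G (dP 2 (e (a.getD i 0)) * (pr (a.take i) * pr (a.drop (i + 1)))) :=
      fun i hi => fiber_sum G ha1 ha2 (Finset.mem_range.mp hi)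
    rw [Finset.sum_congr rfl h3, ← Finset.mul_sum, ← map_sum]
    have h4 := der_pr (dP 2) a
    rw [ha1] at h4
    rw [← h4, hA a ha1 ha2, mul_one]
  rw [Finset.sum_congr rfl h2, Finset.sum_const, nsmul_eq_mul, mul_comm]

theorem listNMP (R m : ℕ) (hR : 1 ≤ R) (hm : R + 1 ≤ m) :
    ∃ c : ℚ, 0 < c ∧
      (∀ 𝓕 ⊆ LL R m, (𝓕.card : ℚ) ≤
        c * ((LL (R + 1) (m - 2)).filter (fun b => ∃ i < R, mg b i ∈ 𝓕)).card) ∧
      ((LL R m).card : ℚ) = c * (LL (R + 1) (m - 2)).card := by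
  obtain ⟨G, c0, hpos, hA, hB⟩ := exists_flow R m hR hm
  have hR0 : (0 : ℚ) < R := by exact_mod_cast hR
  have hB' : ∀ b ∈ LL (R + 1) (m - 2), ∑ i ∈ Finset.range R, wt R G b i = R * c0 := by
    intro b hb
    obtain ⟨h1, h2⟩ := mem_LL.mp hb
    rw [sum_wt R G b h1, hB b h1 (by omega)]
  have ineq : ∀ 𝓕 ⊆ LL R m, (𝓕.card : ℚ) ≤ (R * c0 / (R + 1)) *
      ((LL (R + 1) (m - 2)).filter (fun b => ∃ i < R, mg b i ∈ 𝓕)).card := by
    intro 𝓕 hF
    have h1 := double_sum R m G hA 𝓕 hF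
    have h2 : ∑ i ∈ Finset.range R, ∑ b ∈ (LL (R + 1) (m - 2)).filter (fun b => mg b i ∈ 𝓕),
        wt R G b i ≤ ∑ i ∈ Finset.range R,
          ∑ b ∈ (LL (R + 1) (m - 2)).filter (fun b => ∃ i < R, mg b i ∈ 𝓕), wt R G b i := by
      refine Finset.sum_le_sum fun i hi => ?_
      have hi' := Finset.mem_range.mp hi
      refine Finset.sum_le_sum_of_subset_of_nonneg ?_ ?_
      · intro b hb
        rw [Finset.mem_filter] at hb ⊢
        exact ⟨hb.1, i, hi', hb.2⟩
      · intro b _ _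
        exact wt_nonneg hpos hi' b
    rw [h1, Finset.sum_comm] at h2
    rw [Finset.sum_congr rfl (fun b hb => hB' b (Finset.mem_filter.mp hb).1), Finset.sum_const,
      nsmul_eq_mul] at h2
    rw [div_mul_eq_mul_div, le_div_iff₀ (by positivity)]
    linarith
  have eq : ((LL R m).card : ℚ) = (R * c0 / (R + 1)) * (LL (R + 1) (m - 2)).card := by
    have h1 := double_sum R m G hA (LL R m) (Finset.Subset.refl _)
    have h2 : ∀ i ∈ Finset.range R, (LL (R + 1) (m - 2)).filter (fun b => mg b i ∈ LL R m) =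
        LL (R + 1) (m - 2) := by
      intro i hi
      have hi' := Finset.mem_range.mp hi
      rw [Finset.filter_eq_self]
      intro b hb
      obtain ⟨h3, h4⟩ := mem_LL.mp hb
      rw [mem_LL]
      have h5 := length_mg (b := b) (i := i) (by omega)
      have h6 := sum_mg (b := b) (i := i) (by omega)
      omega
    rw [Finset.sum_congr rfl (fun i hi => by rw [h2 i hi]), Finset.sum_comm,
      Finset.sum_congr rfl hB', Finset.sum_const, nsmul_eq_mul] at h1
    rw [div_mul_eq_mul_div, eq_div_iff (by positivity)]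
    linarith
  refine ⟨_, ?_, ineq, eq⟩
  have hne : (0 : ℚ) < (LL R m).card := by
    have : (m :: List.replicate (R - 1) 0) ∈ LL R m := by
      rw [mem_LL]
      simp
      omega
    exact_mod_cast Finset.card_pos.mpr ⟨_, this⟩
  by_contra hcon
  push Not at hcon
  have : (0 : ℚ) ≤ (LL (R + 1) (m - 2)).card := by positivity
  nlinarith

end Pool.Agent.Lib.MP5ae207
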