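import Mathlib
import Pool.Agent.Lib.MP_5ae207_co.ListNMP

set_option autoImplicit false

namespace Pool.Agent.Lib.MP5ae207

open Classical

/-- the independent set coded by a list of run lengths -/
def toSet : ℕ → List ℕ → Finset ℕ
  | _, [] => ∅
  | _, [_] => ∅
  | o, a :: b :: L => insert (o + a) (toSet (o + a + 2) (b :: L))

lemma toSet_cons {o x : ℕ} {a : List ℕ} (ha : a ≠ []) :
    toSet o (x :: a) = insert (o + x) (toSet (o + x + 2) a) := by
  rcases a with _ | ⟨y, L⟩
  · exact absurd rfl ha
  · rfl

structure Good (o N r : ℕ) (s : Finset ℕ) : Prop where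
  card : s.card = r
  lb : ∀ i ∈ s, o ≤ i
  ub : ∀ i ∈ s, i + 2 ≤ o + N
  ind : ∀ i ∈ s, i + 1 ∉ s

lemma toSet_good (r : ℕ) : ∀ (o N : ℕ) (a : List ℕ), a.length = r + 1 → a.sum + 2 * r = N →
    Good o N r (toSet o a) := by
  induction r with
  | zero =>
    intro o N a ha hs
    rcases a with _ | ⟨x, _ | ⟨y, L⟩⟩
    · simp at ha
    · exact ⟨by simp [toSet], by simp [toSet], by simp [toSet], by simp [toSet]⟩
    · simp at ha
  | succ r ih =>
    intro o N a ha hs
    rcases a with _ | ⟨x, b⟩
    · simp at ha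
    · simp only [List.length_cons, List.sum_cons] at ha hs
      have hb : b ≠ [] := by rintro rfl; simp at ha
      have h := ih (o + x + 2) (N - x - 2) b (by omega) (by omega)
      rw [toSet_cons hb]
      have hx : o + x ∉ toSet (o + x + 2) b := by
        intro hm; have := h.lb _ hm; omega
      refine ⟨?_, ?_, ?_, ?_⟩
      · rw [Finset.card_insert_of_notMem hx, h.card]
      · intro i hi
        rcases Finset.mem_insert.mp hi with rfl | hi
        · omega
        · have := h.lb i hi; omega
      · intro i hi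
        rcases Finset.mem_insert.mp hi with rfl | hi
        · omega
        · have := h.ub i hi; omega
      · intro i hi hi'
        rcases Finset.mem_insert.mp hi with rfl | hi
        · rcases Finset.mem_insert.mp hi' with h1 | h1
          · omega
          · have := h.lb _ h1; omega
        · rcases Finset.mem_insert.mp hi' with h1 | h1
          · have := h.lb _ hi; omega
          · exact h.ind i hi h1

lemma toSet_inj (r : ℕ) : ∀ (o N : ℕ) (a a' : List ℕ), a.length = r + 1 → a'.length = r + 1 →
    a.sum + 2 * r = N → a'.sum + 2 * r = N → toSet o a = toSet o a' → a = a' := by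
  induction r with
  | zero =>
    intro o N a a' ha ha' hs hs' _
    rcases a with _ | ⟨x, _ | ⟨y, L⟩⟩
    · simp at ha
    · rcases a' with _ | ⟨x', _ | ⟨y', L'⟩⟩
      · simp at ha'
      · simp only [List.sum_cons, List.sum_nil] at hs hs'
        have : x = x' := by omega
        rw [this]
      · simp at ha'
    · simp at ha
  | succ r ih =>
    intro o N a a' ha ha' hs hs' heq
    rcases a with _ | ⟨x, b⟩
    · simp at ha
    rcases a' with _ | ⟨x', b'⟩
    · simp at ha'
    simp only [List.length_cons, List.sum_cons] at ha hs ha' hs'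
    have hb : b ≠ [] := by rintro rfl; simp at ha
    have hb' : b' ≠ [] := by rintro rfl; simp at ha'
    have h := toSet_good r (o + x + 2) (N - x - 2) b (by omega) (by omega)
    have h' := toSet_good r (o + x' + 2) (N - x' - 2) b' (by omega) (by omega)
    rw [toSet_cons hb, toSet_cons hb'] at heq
    have hxx : x = x' := by
      have h1 : o + x ∈ insert (o + x') (toSet (o + x' + 2) b') := by
        rw [← heq]; exact Finset.mem_insert_self _ _
      have h2 : o + x' ∈ insert (o + x) (toSet (o + x + 2) b) := by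
        rw [heq]; exact Finset.mem_insert_self _ _
      rcases Finset.mem_insert.mp h1 with h3 | h3
      · omega
      · rcases Finset.mem_insert.mp h2 with h4 | h4
        · omega
        · have := h'.lb _ h3
          have := h.lb _ h4
          omega
    subst hxx
    have hx : o + x ∉ toSet (o + x + 2) b := by
      intro hm; have := h.lb _ hm; omega
    have hx' : o + x ∉ toSet (o + x + 2) b' := by
      intro hm; have := h'.lb _ hm; omega
    have heq2 : toSet (o + x + 2) b = toSet (o + x + 2) b' := by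
      rw [← Finset.erase_insert hx, ← Finset.erase_insert hx', heq]
    rw [ih (o + x + 2) (N - x - 2) b b' (by omega) (by omega) (by omega) (by omega) heq2]

lemma toSet_surj (r : ℕ) : ∀ (o N : ℕ) (s : Finset ℕ), (r = 0 → True) → Good o N r s →
    ∃ a : List ℕ, a.length = r + 1 ∧ a.sum + 2 * r = N ∧ toSet o a = s := by
  induction r with
  | zero =>
    intro o N s _ hg
    refine ⟨[N], rfl, by simp, ?_⟩
    rw [Finset.card_eq_zero.mp hg.card]; rfl
  | succ r ih =>
    intro o N s _ hg
    have hne : s.Nonempty := by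
      rw [← Finset.card_pos, hg.card]; omega
    set t := s.min' hne with ht
    have hts : t ∈ s := Finset.min'_mem s hne
    have h1 := hg.lb t hts
    have h2 := hg.ub t hts
    have hg' : Good (t + 2) (o + N - t - 2) r (s.erase t) := by
      refine ⟨?_, ?_, ?_, ?_⟩
      · rw [Finset.card_erase_of_mem hts, hg.card]; omega
      · intro i hi
        have hi1 := Finset.mem_of_mem_erase hi
        have hi2 := Finset.ne_of_mem_erase hi
        have h3 := Finset.min'_le s i hi1
        rw [← ht] at h3
        have h4 : i ≠ t + 1 := by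
          rintro rfl; exact hg.ind t hts hi1
        omega
      · intro i hi
        have := hg.ub i (Finset.mem_of_mem_erase hi)
        omega
      · intro i hi hi'
        exact hg.ind i (Finset.mem_of_mem_erase hi) (Finset.mem_of_mem_erase hi')
    obtain ⟨a, ha1, ha2, ha3⟩ := ih (t + 2) (o + N - t - 2) (s.erase t) (fun _ => trivial) hg'
    have ha : a ≠ [] := by rintro rfl; simp at ha1
    refine ⟨(t - o) :: a, by simp [ha1], ?_, ?_⟩
    · simp only [List.sum_cons]
      omega
    · rw [toSet_cons ha]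
      have h5 : o + (t - o) = t := by omega
      rw [h5, ha3, Finset.insert_erase hts]

lemma mg_ne_nil (b : List ℕ) (i : ℕ) : mg b i ≠ [] := by
  unfold mg; simp

lemma toSet_mg (i : ℕ) : ∀ (o : ℕ) (b : List ℕ), i + 1 < b.length →
    toSet o (mg b i) ⊆ toSet o b := by
  induction i with
  | zero =>
    intro o b hb
    rcases b with _ | ⟨x, _ | ⟨y, L⟩⟩
    · simp at hb
    · simp at hb
    · have h1 : mg (x :: y :: L) 0 = (x + y + 2) :: L := by simp [mg]
      rw [h1]
      rcases L with _ | ⟨z, L⟩
      · simp [toSet]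
      · have h2 : toSet o ((x + y + 2) :: z :: L) =
          insert (o + x + 2 + y) (toSet (o + x + 2 + y + 2) (z :: L)) := by
          rw [toSet]
          congr 1
          · ring
          · congr 1; ring
        rw [h2]
        rw [toSet, toSet]
        exact Finset.subset_insert _ _
  | succ i ih =>
    intro o b hb
    rcases b with _ | ⟨x, b⟩
    · simp at hb
    · have h1 : mg (x :: b) (i + 1) = x :: mg b i := by simp [mg]
      have hb0 : b ≠ [] := by rintro rfl; simp at hb
      rw [h1, toSet_cons (mg_ne_nil b i), toSet_cons hb0]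
      exact Finset.insert_subset_insert _ (ih _ _ (by simp at hb; omega))

/-- independent sets of size `r` of the path on `0, ..., n - 1` -/
def PI (n r : ℕ) : Finset (Finset ℕ) :=
  ((Finset.range n).powersetCard r).filter (fun s => ∀ i ∈ s, i + 1 ∉ s)

lemma mem_PI {n r : ℕ} {s : Finset ℕ} : s ∈ PI n r ↔ Good 0 (n + 1) r s := by
  unfold PI
  rw [Finset.mem_filter, Finset.mem_powersetCard]
  constructor
  · rintro ⟨⟨h1, h2⟩, h3⟩
    refine ⟨h2, fun i _ => Nat.zero_le _, fun i hi => ?_, h3⟩
    have := Finset.mem_range.mp (h1 hi)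
    omega
  · rintro ⟨h1, _, h3, h4⟩
    refine ⟨⟨fun i hi => ?_, h1⟩, h4⟩
    have := h3 i hi
    rw [Finset.mem_range]; omega

lemma image_LL {n r : ℕ} (h : 2 * r ≤ n + 1) :
    (LL (r + 1) (n + 1 - 2 * r)).image (toSet 0) = PI n r := by
  ext s
  rw [Finset.mem_image, mem_PI]
  constructor
  · rintro ⟨a, ha, rfl⟩
    obtain ⟨h1, h2⟩ := mem_LL.mp ha
    exact toSet_good r 0 (n + 1) a h1 (by omega)
  · intro hg
    obtain ⟨a, h1, h2, h3⟩ := toSet_surj r 0 (n + 1) s (fun _ => trivial) hg
    exact ⟨a, mem_LL.mpr ⟨h1, by omega⟩, h3⟩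

lemma injOn_LL {n r : ℕ} (h : 2 * r ≤ n + 1) :
    Set.InjOn (toSet 0) (LL (r + 1) (n + 1 - 2 * r) : Set (List ℕ)) := by
  intro a ha b hb hab
  obtain ⟨h1, h2⟩ := mem_LL.mp (Finset.mem_coe.mp ha)
  obtain ⟨h3, h4⟩ := mem_LL.mp (Finset.mem_coe.mp hb)
  exact toSet_inj r 0 (n + 1) a b h1 h3 (by omega) (by omega) hab

/-- upper shadow inside a level -/
noncomputable def upS {α : Type*} (L' : Finset (Finset α)) (𝓕 : Finset (Finset α)) :
    Finset (Finset α) :=
  L'.filter (fun t => ∃ s ∈ 𝓕, s ⊆ t)

lemma mem_upS {α : Type*} {L' 𝓕 : Finset (Finset α)} {t : Finset α} :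
    t ∈ upS L' 𝓕 ↔ t ∈ L' ∧ ∃ s ∈ 𝓕, s ⊆ t := by
  unfold upS; exact Finset.mem_filter

theorem pathNMP (n r : ℕ) (h : 3 * r + 1 ≤ n) :
    ∃ c : ℚ, 0 < c ∧
      (∀ 𝓕 ⊆ PI n r, (𝓕.card : ℚ) ≤ c * (upS (PI n (r + 1)) 𝓕).card) ∧
      ((PI n r).card : ℚ) = c * (PI n (r + 1)).card := by
  obtain ⟨c, hc, h1, h2⟩ := listNMP (r + 1) (n + 1 - 2 * r) (by omega) (by omega)
  have hsub : n + 1 - 2 * r - 2 = n + 1 - 2 * (r + 1) := by omega
  rw [hsub] at h1 h2
  have c1 : (PI n r).card = (LL (r + 1) (n + 1 - 2 * r)).card := by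
    rw [← image_LL (by omega), Finset.card_image_of_injOn (injOn_LL (by omega))]
  have c2 : (PI n (r + 1)).card = (LL (r + 1 + 1) (n + 1 - 2 * (r + 1))).card := by
    rw [← image_LL (by omega), Finset.card_image_of_injOn (injOn_LL (by omega))]
  refine ⟨c, hc, ?_, ?_⟩
  · intro 𝓕 hF
    set 𝓖 := (LL (r + 1) (n + 1 - 2 * r)).filter (fun a => toSet 0 a ∈ 𝓕) with hG
    have h3 : 𝓖.image (toSet 0) = 𝓕 := by
      ext s
      rw [Finset.mem_image]
      constructor
      · rintro ⟨a, ha, rfl⟩
        exact (Finset.mem_filter.mp ha).2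
      · intro hs
        have := hF hs
        rw [← image_LL (by omega), Finset.mem_image] at this
        obtain ⟨a, ha, rfl⟩ := this
        exact ⟨a, Finset.mem_filter.mpr ⟨ha, hs⟩, rfl⟩
    have h4 : 𝓕.card = 𝓖.card := by
      rw [← h3, Finset.card_image_of_injOn]
      exact (injOn_LL (n := n) (r := r) (by omega)).mono (by
        intro a ha
        exact (Finset.mem_filter.mp (Finset.mem_coe.mp ha)).1)
    have h5 := h1 𝓖 (Finset.filter_subset _ _)
    rw [h4]
    refine h5.trans ?_
    refine mul_le_mul_of_nonneg_left ?_ hc.le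
    norm_cast
    refine Finset.card_le_card_of_injOn (toSet 0) ?_ ?_
    · intro b hb
      obtain ⟨hb1, i, hi, hb2⟩ := Finset.mem_filter.mp (Finset.mem_coe.mp hb)
      obtain ⟨hb3, hb4⟩ := mem_LL.mp hb1
      refine Finset.mem_coe.mpr (mem_upS.mpr ⟨?_, ?_⟩)
      · rw [← image_LL (by omega)]
        exact Finset.mem_image_of_mem _ hb1
      · refine ⟨toSet 0 (mg b i), (Finset.mem_filter.mp hb2).2, toSet_mg i 0 b (by omega)⟩
    · exact (injOn_LL (n := n) (r := r + 1) (by omega)).mono (by
        intro b hb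
        exact (Finset.mem_filter.mp (Finset.mem_coe.mp hb)).1)
  · rw [c1, c2, h2]

end Pool.Agent.Lib.MP5ae207
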