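import Mathlib
import Pool.Agent.Lib.MP_5ae207_co.PathSets

set_option autoImplicit false

namespace Pool.Agent.Lib.MP5ae207

open Classical

variable {α : Type*}

noncomputable def lev (Q : Finset (Finset α)) (r : ℕ) : Finset (Finset α) :=
  Q.filter (fun s => s.card = r)

lemma mem_lev {Q : Finset (Finset α)} {r : ℕ} {s : Finset α} :
    s ∈ lev Q r ↔ s ∈ Q ∧ s.card = r := by
  unfold lev; exact Finset.mem_filter

noncomputable def dnS (L' 𝓖 : Finset (Finset α)) : Finset (Finset α) :=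
  L'.filter (fun s => ∃ t ∈ 𝓖, s ⊆ t)

lemma mem_dnS {L' 𝓕 : Finset (Finset α)} {s : Finset α} :
    s ∈ dnS L' 𝓕 ↔ s ∈ L' ∧ ∃ t ∈ 𝓕, s ⊆ t := by
  unfold dnS; exact Finset.mem_filter

lemma push_down (Q : Finset (Finset α)) (r0 : ℕ)
    (h2 : ∀ r, r0 ≤ r → ∀ 𝓖 ⊆ lev Q (r + 1), 𝓖.card ≤ (dnS (lev Q r) 𝓖).card) (k : ℕ) :
    ∀ 𝒜 : Finset (Finset α), 𝒜 ⊆ Q → IsAntichain (· ⊆ ·) (𝒜 : Set (Finset α)) →
      (∀ s ∈ 𝒜, s.card ≤ r0 + k) →
      ∃ 𝒜' : Finset (Finset α), 𝒜' ⊆ Q ∧ IsAntichain (· ⊆ ·) (𝒜' : Set (Finset α)) ∧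
        (∀ s ∈ 𝒜', s.card ≤ r0) ∧ 𝒜.card ≤ 𝒜'.card := by
  induction k with
  | zero =>
    intro 𝒜 hQ hA hs
    exact ⟨𝒜, hQ, hA, hs, le_refl _⟩
  | succ k ih =>
    intro 𝒜 hQ hA hs
    set 𝓖 := 𝒜.filter (fun s => s.card = r0 + k + 1) with hG
    set 𝓡 := 𝒜.filter (fun s => ¬ s.card = r0 + k + 1) with hR
    have hGsub : 𝓖 ⊆ lev Q (r0 + k + 1) := by
      intro s hs'
      rw [hG, Finset.mem_filter] at hs'
      exact mem_lev.mpr ⟨hQ hs'.1, hs'.2⟩
    have hcard := h2 (r0 + k) (by omega) 𝓖 hGsub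
    set 𝓓 := dnS (lev Q (r0 + k)) 𝓖 with hD
    have hdisj : Disjoint 𝓡 𝓓 := by
      rw [Finset.disjoint_left]
      intro s h3 h4
      rw [hR, Finset.mem_filter] at h3
      obtain ⟨h5, t, ht, hst⟩ := mem_dnS.mp h4
      rw [hG, Finset.mem_filter] at ht
      have hne : s ≠ t := by
        rintro rfl
        exact h3.2 ht.2
      exact hA (Finset.mem_coe.mpr h3.1) (Finset.mem_coe.mpr ht.1) hne hst
    have hQ' : 𝓡 ∪ 𝓓 ⊆ Q := by
      intro s h3
      rcases Finset.mem_union.mp h3 with h3 | h3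
      · exact hQ (Finset.mem_filter.mp h3).1
      · exact (mem_lev.mp (mem_dnS.mp h3).1).1
    have hsz : ∀ s ∈ 𝓡 ∪ 𝓓, s.card ≤ r0 + k := by
      intro s h3
      rcases Finset.mem_union.mp h3 with h3 | h3
      · rw [hR, Finset.mem_filter] at h3
        have := hs s h3.1
        have := h3.2
        omega
      · have := (mem_lev.mp (mem_dnS.mp h3).1).2
        omega
    have hanti : IsAntichain (· ⊆ ·) ((𝓡 ∪ 𝓓 : Finset (Finset α)) : Set (Finset α)) := by
      intro s h3 t h4 hne hst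
      rcases Finset.mem_union.mp (Finset.mem_coe.mp h3) with h3' | h3'
      · rcases Finset.mem_union.mp (Finset.mem_coe.mp h4) with h4' | h4'
        · rw [hR, Finset.mem_filter] at h3' h4'
          exact hA (Finset.mem_coe.mpr h3'.1) (Finset.mem_coe.mpr h4'.1) hne hst
        · obtain ⟨h5, u, hu, htu⟩ := mem_dnS.mp h4'
          rw [hG, Finset.mem_filter] at hu
          rw [hR, Finset.mem_filter] at h3'
          have hne' : s ≠ u := by rintro rfl; exact h3'.2 hu.2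
          exact hA (Finset.mem_coe.mpr h3'.1) (Finset.mem_coe.mpr hu.1) hne' (hst.trans htu)
      · have h5 := (mem_lev.mp (mem_dnS.mp h3').1).2
        have h6 := hsz t (Finset.mem_coe.mp h4)
        have h7 := Finset.eq_of_subset_of_card_le hst (by omega)
        exact hne h7
    obtain ⟨𝒜', a1, a2, a3, a4⟩ := ih (𝓡 ∪ 𝓓) hQ' hanti hsz
    refine ⟨𝒜', a1, a2, a3, le_trans ?_ a4⟩
    rw [Finset.card_union_of_disjoint hdisj]
    have : 𝒜.card = 𝓖.card + 𝓡.card := by
      rw [hG, hR, Finset.card_filter_add_card_filter_not]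
    omega

lemma lym (Q : Finset (Finset α)) (r0 : ℕ) (h0 : (lev Q 0).Nonempty)
    (h1 : ∀ r < r0, ∃ c : ℚ, 0 < c ∧
      (∀ 𝓕 ⊆ lev Q r, (𝓕.card : ℚ) ≤ c * (upS (lev Q (r + 1)) 𝓕).card) ∧
      ((lev Q r).card : ℚ) = c * (lev Q (r + 1)).card)
    (𝒜 : Finset (Finset α)) (hQ : 𝒜 ⊆ Q) (hA : IsAntichain (· ⊆ ·) (𝒜 : Set (Finset α))) (j : ℕ) :
    j ≤ r0 → 0 < (lev Q j).card ∧
      ∑ i ∈ Finset.range (j + 1), ((𝒜.filter (fun s => s.card = i)).card : ℚ) / (lev Q i).card ≤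
        ((upS (lev Q j) 𝒜).card : ℚ) / (lev Q j).card := by
  induction j with
  | zero =>
    intro _
    refine ⟨Finset.card_pos.mpr h0, ?_⟩
    rw [Finset.sum_range_one]
    have hpos : (0 : ℚ) < (lev Q 0).card := by exact_mod_cast Finset.card_pos.mpr h0
    rw [div_le_div_iff_of_pos_right hpos]
    norm_cast
    refine Finset.card_le_card fun s hs => ?_
    rw [Finset.mem_filter] at hs
    exact mem_upS.mpr ⟨mem_lev.mpr ⟨hQ hs.1, hs.2⟩, s, hs.1, Finset.Subset.refl _⟩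
  | succ j ih =>
    intro hj
    obtain ⟨hpos, hsum⟩ := ih (by omega)
    obtain ⟨c, hc, hc1, hc2⟩ := h1 j (by omega)
    have hpos' : (0 : ℚ) < (lev Q j).card := by exact_mod_cast hpos
    have hpos2 : (0 : ℚ) < (lev Q (j + 1)).card := by
      rw [hc2] at hpos'
      exact (pos_iff_pos_of_mul_pos hpos').mp hc
    refine ⟨by exact_mod_cast hpos2, ?_⟩
    rw [Finset.sum_range_succ]
    set G := upS (lev Q j) 𝒜 with hG
    have hGsub : G ⊆ lev Q j := fun s hs => (mem_upS.mp hs).1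
    have h3 := hc1 G hGsub
    have hunion : upS (lev Q (j + 1)) G ∪ 𝒜.filter (fun s => s.card = j + 1) ⊆
        upS (lev Q (j + 1)) 𝒜 := by
      intro t ht
      rcases Finset.mem_union.mp ht with ht | ht
      · obtain ⟨h4, s, hs, hst⟩ := mem_upS.mp ht
        obtain ⟨_, u, hu, hus⟩ := mem_upS.mp hs
        exact mem_upS.mpr ⟨h4, u, hu, hus.trans hst⟩
      · rw [Finset.mem_filter] at ht
        exact mem_upS.mpr ⟨mem_lev.mpr ⟨hQ ht.1, ht.2⟩, t, ht.1, Finset.Subset.refl _⟩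
    have hdisj : Disjoint (upS (lev Q (j + 1)) G) (𝒜.filter (fun s => s.card = j + 1)) := by
      rw [Finset.disjoint_left]
      intro t ht ht'
      obtain ⟨h4, s, hs, hst⟩ := mem_upS.mp ht
      obtain ⟨h5, u, hu, hus⟩ := mem_upS.mp hs
      rw [Finset.mem_filter] at ht'
      have h6 := (mem_lev.mp h5).2
      have hne : u ≠ t := by
        rintro rfl
        have := Finset.card_le_card hus
        omega
      exact hA (Finset.mem_coe.mpr hu) (Finset.mem_coe.mpr ht'.1) hne (hus.trans hst)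
    have h7 := Finset.card_le_card hunion
    rw [Finset.card_union_of_disjoint hdisj] at h7
    have h8 : (G.card : ℚ) / (lev Q j).card ≤
        ((upS (lev Q (j + 1)) G).card : ℚ) / (lev Q (j + 1)).card := by
      rw [hc2, div_le_div_iff₀ (by positivity) hpos2]
      nlinarith
    have h9 : ((upS (lev Q (j + 1)) G).card : ℚ) +
        ((𝒜.filter (fun s => s.card = j + 1)).card : ℚ) ≤ (upS (lev Q (j + 1)) 𝒜).card := by
      exact_mod_cast h7
    calc _ ≤ ((upS (lev Q (j + 1)) G).card : ℚ) / (lev Q (j + 1)).card +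
          ((𝒜.filter (fun s => s.card = j + 1)).card : ℚ) / (lev Q (j + 1)).card := by
            have := hsum.trans h8
            linarith
      _ = (((upS (lev Q (j + 1)) G).card : ℚ) +
        ((𝒜.filter (fun s => s.card = j + 1)).card : ℚ)) / (lev Q (j + 1)).card := by ring
      _ ≤ _ := by
        rw [div_le_div_iff_of_pos_right hpos2]
        exact h9

theorem sperner_of (Q : Finset (Finset α)) (r0 : ℕ) (h0 : (lev Q 0).Nonempty)
    (h1 : ∀ r < r0, ∃ c : ℚ, 0 < c ∧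
      (∀ 𝓕 ⊆ lev Q r, (𝓕.card : ℚ) ≤ c * (upS (lev Q (r + 1)) 𝓕).card) ∧
      ((lev Q r).card : ℚ) = c * (lev Q (r + 1)).card)
    (h2 : ∀ r, r0 ≤ r → ∀ 𝓖 ⊆ lev Q (r + 1), 𝓖.card ≤ (dnS (lev Q r) 𝓖).card)
    (𝒜 : Finset (Finset α)) (hQ : 𝒜 ⊆ Q) (hA : IsAntichain (· ⊆ ·) (𝒜 : Set (Finset α))) :
    ∃ r, 𝒜.card ≤ (lev Q r).card := by
  obtain ⟨𝒜', hQ', hA', hs', hc'⟩ := push_down Q r0 h2 (𝒜.sup Finset.card) 𝒜 hQ hA (by
    intro s hs
    have := Finset.le_sup (f := Finset.card) hs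
    omega)
  obtain ⟨hpos, hsum⟩ := lym Q r0 h0 h1 𝒜' hQ' hA' r0 (le_refl _)
  have hle1 : ((upS (lev Q r0) 𝒜').card : ℚ) / (lev Q r0).card ≤ 1 := by
    have hp : (0 : ℚ) < (lev Q r0).card := by exact_mod_cast hpos
    rw [div_le_one hp]
    norm_cast
    exact Finset.card_le_card fun s hs => (mem_upS.mp hs).1
  obtain ⟨r, hr, hmax⟩ := Finset.exists_max_image (Finset.range (r0 + 1))
    (fun i => (lev Q i).card) ⟨0, by simp⟩
  refine ⟨r, hc'.trans ?_⟩
  have hcardsum : 𝒜'.card = ∑ i ∈ Finset.range (r0 + 1),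
      (𝒜'.filter (fun s => s.card = i)).card := by
    refine Finset.card_eq_sum_card_fiberwise ?_
    intro s hs
    have := hs' s (Finset.mem_coe.mp hs)
    simp
    omega
  have hMpos : (0 : ℚ) < (lev Q r).card := by
    have h3 := hmax r0 (by simp)
    have : 0 < (lev Q r).card := lt_of_lt_of_le hpos h3
    exact_mod_cast this
  have key : (𝒜'.card : ℚ) ≤ (lev Q r).card := by
    rw [hcardsum]
    push_cast
    have h4 : ∀ i ∈ Finset.range (r0 + 1), ((𝒜'.filter (fun s => s.card = i)).card : ℚ) ≤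
        (lev Q r).card * (((𝒜'.filter (fun s => s.card = i)).card : ℚ) / (lev Q i).card) := by
      intro i hi
      have hi' : i ≤ r0 := by simpa [Nat.lt_succ_iff] using hi
      obtain ⟨hp, _⟩ := lym Q r0 h0 h1 𝒜' hQ' hA' i hi'
      have hp' : (0 : ℚ) < (lev Q i).card := by exact_mod_cast hp
      have hm : ((lev Q i).card : ℚ) ≤ (lev Q r).card := by exact_mod_cast hmax i hi
      rw [mul_div_assoc', le_div_iff₀ hp']
      have : (0 : ℚ) ≤ ((𝒜'.filter (fun s => s.card = i)).card : ℚ) := by positivity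
      nlinarith
    calc _ ≤ ∑ i ∈ Finset.range (r0 + 1), (lev Q r).card *
          (((𝒜'.filter (fun s => s.card = i)).card : ℚ) / (lev Q i).card) :=
          Finset.sum_le_sum h4
      _ = (lev Q r).card * ∑ i ∈ Finset.range (r0 + 1),
          (((𝒜'.filter (fun s => s.card = i)).card : ℚ) / (lev Q i).card) := by
          rw [Finset.mul_sum]
      _ ≤ (lev Q r).card * 1 := by
          refine mul_le_mul_of_nonneg_left ?_ hMpos.le
          exact hsum.trans hle1
      _ = _ := by ring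
  exact_mod_cast key

end Pool.Agent.Lib.MP5ae207
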