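import Mathlib
import Pool.Agent.Lib.MP_5ae207_co.Sperner

set_option autoImplicit false

namespace Pool.Agent.Lib.MP5ae207

open Classical

variable {α β : Type*}

lemma shadow_of_degree (Q : Finset (Finset α)) (hdown : ∀ s t : Finset α, s ⊆ t → t ∈ Q → s ∈ Q)
    (r : ℕ) (V : Finset α → Finset α)
    (hV : ∀ A ∈ lev Q r, ∀ t ∈ Q, A ⊆ t → ∀ v ∈ t, v ∉ A → v ∈ V A)
    (hcard : ∀ A ∈ lev Q r, (V A).card ≤ r + 1) :
    ∀ 𝓖 ⊆ lev Q (r + 1), 𝓖.card ≤ (dnS (lev Q r) 𝓖).card := by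
  intro 𝓖 hG
  have h := Finset.card_mul_le_card_mul (s := 𝓖) (t := dnS (lev Q r) 𝓖) (m := r + 1) (n := r + 1)
    (fun t s => s ⊆ t) ?_ ?_
  · exact Nat.le_of_mul_le_mul_right h (by omega)
  · intro t ht
    obtain ⟨h1, h2⟩ := mem_lev.mp (hG ht)
    have h3 : (t.image (fun x => t.erase x)).card = r + 1 := by
      rw [Finset.card_image_of_injOn, h2]
      exact Finset.erase_injOn t
    rw [← h3]
    refine Finset.card_le_card fun s hs => ?_
    obtain ⟨x, hx, rfl⟩ := Finset.mem_image.mp hs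
    rw [Finset.mem_bipartiteAbove]
    refine ⟨mem_dnS.mpr ⟨mem_lev.mpr ⟨hdown _ _ (Finset.erase_subset x t) h1, ?_⟩, t, ht,
      Finset.erase_subset x t⟩, Finset.erase_subset x t⟩
    rw [Finset.card_erase_of_mem hx, h2]; rfl
  · intro s hs
    have h1 := (mem_dnS.mp hs).1
    obtain ⟨h2, h3⟩ := mem_lev.mp h1
    refine le_trans ?_ (hcard s h1)
    refine Finset.card_le_card_of_surjOn (fun v => insert v s) ?_
    intro t ht
    rw [Finset.mem_coe, Finset.mem_bipartiteBelow] at ht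
    obtain ⟨h4, h5⟩ := ht
    obtain ⟨h6, h7⟩ := mem_lev.mp (hG h4)
    have h8 : (t \ s).card = 1 := by
      rw [Finset.card_sdiff_of_subset h5]; omega
    obtain ⟨v, hv⟩ := Finset.card_eq_one.mp h8
    have h9 : insert v s = t := by
      rw [← Finset.sdiff_union_of_subset h5, hv]; rfl
    have h10 : v ∉ s := by
      have : v ∈ t \ s := by rw [hv]; simp
      exact (Finset.mem_sdiff.mp this).2
    have h11 : v ∈ t := by rw [← h9]; exact Finset.mem_insert_self _ _
    exact ⟨v, Finset.mem_coe.mpr (hV s h1 t h6 h5 v h11 h10), h9⟩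

/-- transfer of the normalized matching inequality along an embedding -/
lemma transfer {L L' : Finset (Finset α)} {M M' : Finset (Finset β)} (f : Finset α → Finset β)
    (hinj : Set.InjOn f L) (hinj' : Set.InjOn f L')
    (hL0 : ∀ t, t ∈ M ↔ ∃ s ∈ L, f s = t) (hL0' : ∀ t, t ∈ M' ↔ ∃ s ∈ L', f s = t)
    (hsub : ∀ s ∈ L, ∀ t ∈ L', f s ⊆ f t → s ⊆ t) {c : ℚ} (hc : 0 < c)
    (h1 : ∀ 𝓕 ⊆ M, (𝓕.card : ℚ) ≤ c * (upS M' 𝓕).card)
    (h2 : (M.card : ℚ) = c * M'.card) :
    (∀ 𝓕 ⊆ L, (𝓕.card : ℚ) ≤ c * (upS L' 𝓕).card) ∧ (L.card : ℚ) = c * L'.card := by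
  have hL : L.image f = M := by
    ext t; rw [Finset.mem_image, hL0]
  have hL' : L'.image f = M' := by
    ext t; rw [Finset.mem_image, hL0']
  constructor
  · intro 𝓕 hF
    have h3 := h1 (𝓕.image f) (by rw [← hL]; exact Finset.image_subset_image hF)
    rw [Finset.card_image_of_injOn (hinj.mono (by exact_mod_cast hF))] at h3
    refine h3.trans (mul_le_mul_of_nonneg_left ?_ hc.le)
    norm_cast
    have h4 : upS M' (𝓕.image f) ⊆ (upS L' 𝓕).image f := by
      intro t ht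
      obtain ⟨h5, s, hs, hst⟩ := mem_upS.mp ht
      rw [← hL', Finset.mem_image] at h5
      obtain ⟨t', ht', rfl⟩ := h5
      obtain ⟨s', hs', rfl⟩ := Finset.mem_image.mp hs
      exact Finset.mem_image_of_mem _ (mem_upS.mpr ⟨ht', s', hs', hsub s' (hF hs') t' ht' hst⟩)
    exact (Finset.card_le_card h4).trans Finset.card_image_le
  · rw [← hL, ← hL', Finset.card_image_of_injOn hinj, Finset.card_image_of_injOn hinj'] at h2
    exact h2

end Pool.Agent.Lib.MP5ae207
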