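import Mathlib
import Pool.Agent.Lib.MP_5ae207_co.Degree

set_option autoImplicit false

namespace Pool.Agent.Lib.MP5ae207

open Classical

noncomputable def Qp (n : ℕ) : Finset (Finset (Fin n)) :=
  Finset.univ.filter (fun s => (SimpleGraph.pathGraph n).IsIndepSet (s : Set (Fin n)))

lemma mem_Qp {n : ℕ} {s : Finset (Fin n)} :
    s ∈ Qp n ↔ ∀ i ∈ s, ∀ j ∈ s, (i : ℕ) + 1 ≠ j := by
  unfold Qp
  rw [Finset.mem_filter]
  simp only [Finset.mem_univ, true_and]
  constructor
  · intro h i hi j hj hij
    have hne : i ≠ j := by rintro rfl; omega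
    exact h (Finset.mem_coe.mpr hi) (Finset.mem_coe.mpr hj) hne
      (SimpleGraph.pathGraph_adj.mpr (Or.inl hij))
  · intro h i hi j hj _ hadj
    rcases SimpleGraph.pathGraph_adj.mp hadj with h1 | h1
    · exact h i (Finset.mem_coe.mp hi) j (Finset.mem_coe.mp hj) h1
    · exact h j (Finset.mem_coe.mp hj) i (Finset.mem_coe.mp hi) h1

noncomputable def emb {n : ℕ} (s : Finset (Fin n)) : Finset ℕ := s.map Fin.valEmbedding

lemma mem_emb {n : ℕ} {s : Finset (Fin n)} {i : ℕ} : i ∈ emb s ↔ ∃ h : i < n, (⟨i, h⟩ : Fin n) ∈ s := by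
  unfold emb
  rw [Finset.mem_map]
  constructor
  · rintro ⟨j, hj, rfl⟩; exact ⟨j.2, hj⟩
  · rintro ⟨h, hi⟩; exact ⟨_, hi, rfl⟩

lemma emb_val {n : ℕ} {s : Finset (Fin n)} {i : Fin n} : (i : ℕ) ∈ emb s ↔ i ∈ s := by
  rw [mem_emb]
  constructor
  · rintro ⟨_, h⟩; exact h
  · intro h; exact ⟨i.2, h⟩

lemma image_emb (n r : ℕ) (t : Finset ℕ) : t ∈ PI n r ↔ ∃ s ∈ lev (Qp n) r, emb s = t := by
  rw [mem_PI]
  symm
  constructor
  · rintro ⟨s, hs, rfl⟩
    obtain ⟨h1, h2⟩ := mem_lev.mp hs
    rw [mem_Qp] at h1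
    refine ⟨by rw [emb, Finset.card_map, h2], fun i _ => Nat.zero_le _, ?_, ?_⟩
    · intro i hi
      obtain ⟨h3, _⟩ := mem_emb.mp hi
      omega
    · intro i hi hi'
      obtain ⟨h3, h4⟩ := mem_emb.mp hi
      obtain ⟨h5, h6⟩ := mem_emb.mp hi'
      exact h1 _ h4 _ h6 rfl
  · intro hg
    have hlt : ∀ i ∈ t, i < n := by
      intro i hi; have := hg.ub i hi; omega
    refine ⟨Finset.univ.filter (fun i : Fin n => (i : ℕ) ∈ t), ?_, ?_⟩
    · rw [mem_lev, mem_Qp]
      constructor
      · intro i hi j hj hij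
        rw [Finset.mem_filter] at hi hj
        have := hg.ind _ hi.2
        rw [hij] at this
        exact this hj.2
      · rw [← hg.card]
        have : (Finset.univ.filter (fun i : Fin n => (i : ℕ) ∈ t)).map Fin.valEmbedding = t := by
          ext i
          rw [Finset.mem_map]
          constructor
          · rintro ⟨j, hj, rfl⟩; exact (Finset.mem_filter.mp hj).2
          · intro hi
            exact ⟨⟨i, hlt i hi⟩, Finset.mem_filter.mpr ⟨Finset.mem_univ _, hi⟩, rfl⟩
        conv_rhs => rw [← this]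
        rw [Finset.card_map]
    · ext i
      rw [mem_emb]
      constructor
      · rintro ⟨_, h⟩; exact (Finset.mem_filter.mp h).2
      · intro hi; exact ⟨hlt i hi, Finset.mem_filter.mpr ⟨Finset.mem_univ _, hi⟩⟩

lemma emb_inj {n : ℕ} : Function.Injective (emb : Finset (Fin n) → Finset ℕ) :=
  Finset.map_injective _

lemma Qp_down (n : ℕ) (s t : Finset (Fin n)) (hst : s ⊆ t) (ht : t ∈ Qp n) : s ∈ Qp n := by
  rw [mem_Qp] at ht ⊢
  exact fun i hi j hj => ht i (hst hi) j (hst hj)

theorem path_sperner (n : ℕ) (𝒜 : Finset (Finset (Fin n))) (hQ : 𝒜 ⊆ Qp n)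
    (hA : IsAntichain (· ⊆ ·) (𝒜 : Set (Finset (Fin n)))) :
    ∃ r, 𝒜.card ≤ (lev (Qp n) r).card := by
  -- the critical level
  have hex : ∃ r, n ≤ 3 * r + 1 := ⟨n, by omega⟩
  refine sperner_of (Qp n) (Nat.find hex) ?_ ?_ ?_ 𝒜 hQ hA
  · exact ⟨∅, mem_lev.mpr ⟨mem_Qp.mpr (by simp), by simp⟩⟩
  · intro r hr
    have h1 := Nat.find_min hex hr
    obtain ⟨c, hc, h2, h3⟩ := pathNMP n r (by omega)
    refine ⟨c, hc, ?_⟩
    exact transfer emb emb_inj.injOn emb_inj.injOn (image_emb n r) (image_emb n (r + 1))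
      (fun s _ t _ hst => by
        intro i hi
        exact emb_val.mp (hst (emb_val.mpr hi))) hc h2 h3
  · intro r hr
    have h1 : n ≤ 3 * r + 1 := le_trans (Nat.find_spec hex) (by omega)
    refine shadow_of_degree (Qp n) (Qp_down n) r
      (fun A => Finset.univ.filter (fun v => v ∉ A ∧ ∃ t ∈ Qp n, A ⊆ t ∧ v ∈ t)) ?_ ?_
    · intro A _ t ht hAt v hv hv'
      exact Finset.mem_filter.mpr ⟨Finset.mem_univ _, hv', t, ht, hAt, hv⟩
    · intro A hA'
      obtain ⟨h2, h3⟩ := mem_lev.mp hA'
      rw [mem_Qp] at h2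
      set V := Finset.univ.filter (fun v => v ∉ A ∧ ∃ t ∈ Qp n, A ⊆ t ∧ v ∈ t) with hV
      set V' := emb V with hV'
      have hcardV : V.card = V'.card := by rw [hV', emb, Finset.card_map]
      set A' := emb A with hA''
      have hcardA : A'.card = r := by rw [hA'', emb, Finset.card_map, h3]
      set M := Finset.range (n + 1) \ (A' ∪ A'.image (· + 1)) with hM
      have hdisj : Disjoint A' (A'.image (· + 1)) := by
        rw [Finset.disjoint_left]
        intro i hi hi'
        obtain ⟨j, hj, hji⟩ := Finset.mem_image.mp hi'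
        obtain ⟨hi1, hi2⟩ := mem_emb.mp hi
        obtain ⟨hj1, hj2⟩ := mem_emb.mp hj
        exact h2 _ hj2 _ hi2 hji
      have hMcard : M.card + 2 * r = n + 1 := by
        have hsub : A' ∪ A'.image (· + 1) ⊆ Finset.range (n + 1) := by
          intro i hi
          rw [Finset.mem_range]
          rcases Finset.mem_union.mp hi with hi | hi
          · obtain ⟨hi1, _⟩ := mem_emb.mp hi; omega
          · obtain ⟨j, hj, rfl⟩ := Finset.mem_image.mp hi
            obtain ⟨hj1, _⟩ := mem_emb.mp hj; omega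
        have h4 := Finset.card_sdiff_of_subset hsub
        have h5 := Finset.card_le_card hsub
        rw [Finset.card_union_of_disjoint hdisj, Finset.card_image_of_injective _
          (add_left_injective 1), hcardA, Finset.card_range] at h4 h5
        rw [← hM] at h4
        omega
      rw [hcardV]
      rcases Finset.eq_empty_or_nonempty V' with hemp | hne
      · rw [hemp]; simp
      · have hVsub : ∀ v ∈ V', v ∈ M ∧ v + 1 ∈ M := by
          intro v hv
          obtain ⟨hv1, hv2⟩ := mem_emb.mp hv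
          rw [hV, Finset.mem_filter] at hv2
          obtain ⟨_, hv3, t, ht, hAt, hvt⟩ := hv2
          rw [mem_Qp] at ht
          rw [hM]
          simp only [Finset.mem_sdiff, Finset.mem_range, Finset.mem_union, Finset.mem_image,
            not_or, not_exists, not_and]
          refine ⟨⟨by omega, ?_, ?_⟩, by omega, ?_, ?_⟩
          · intro h; exact hv3 (mem_emb.mp h).2
          · intro j hj hjv
            obtain ⟨hj1, hj2⟩ := mem_emb.mp hj
            exact ht _ (hAt hj2) _ hvt hjv
          · intro h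
            obtain ⟨hj1, hj2⟩ := mem_emb.mp h
            exact ht _ hvt _ (hAt hj2) rfl
          · intro j hj hjv
            obtain ⟨hj1, hj2⟩ := mem_emb.mp hj
            have : j = v := by omega
            subst this
            exact hv3 hj2
        obtain ⟨v0, hv0⟩ := hne
        have hMne : M.Nonempty := ⟨v0, (hVsub v0 hv0).1⟩
        have hsub2 : V' ⊆ M.erase (M.max' hMne) := by
          intro v hv
          rw [Finset.mem_erase]
          refine ⟨?_, (hVsub v hv).1⟩
          rintro rfl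
          have := Finset.le_max' M _ (hVsub _ hv).2
          omega
        have h6 := Finset.card_le_card hsub2
        rw [Finset.card_erase_of_mem (Finset.max'_mem M hMne)] at h6
        omega

end Pool.Agent.Lib.MP5ae207
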