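import Mathlib
import Pool.Agent.Lib.MP_5ae207_co.Path

set_option autoImplicit false

namespace Pool.Agent.Lib.MP5ae207

open Classical
open Fin.CommRing

noncomputable def Qc (k : ℕ) : Finset (Finset (Fin (k + 3))) :=
  Finset.univ.filter (fun s => (SimpleGraph.cycleGraph (k + 3)).IsIndepSet (s : Set (Fin (k + 3))))

lemma mem_Qc {k : ℕ} {s : Finset (Fin (k + 3))} :
    s ∈ Qc k ↔ ∀ i ∈ s, i + 1 ∉ s := by
  unfold Qc
  rw [Finset.mem_filter]
  simp only [Finset.mem_univ, true_and]
  constructor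
  · intro h i hi hj
    have hne : i + 1 ≠ i := by
      intro h1
      have : (1 : Fin (k + 3)) = 0 := by
        have h2 : i + 1 = i + 0 := by rw [h1, add_zero]
        exact add_left_cancel h2
      exact absurd this (by simp)
    exact h (Finset.mem_coe.mpr hj) (Finset.mem_coe.mpr hi) hne
      (SimpleGraph.cycleGraph_adj.mpr (Or.inl (by ring)))
  · intro h i hi j hj _ hadj
    rcases SimpleGraph.cycleGraph_adj.mp hadj with h1 | h1
    · have : i = j + 1 := by rw [← h1]; ring
      exact h j (Finset.mem_coe.mp hj) (this ▸ Finset.mem_coe.mp hi)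
    · have : j = i + 1 := by rw [← h1]; ring
      exact h i (Finset.mem_coe.mp hi) (this ▸ Finset.mem_coe.mp hj)

lemma Qc_down (k : ℕ) (s t : Finset (Fin (k + 3))) (hst : s ⊆ t) (ht : t ∈ Qc k) : s ∈ Qc k := by
  rw [mem_Qc] at ht ⊢
  exact fun i hi hj => ht i (hst hi) (hst hj)

/-- the vertex at distance `i + 2` after `v` -/
def gv {k : ℕ} (v : Fin (k + 3)) (i : ℕ) : Fin (k + 3) := v + ((i + 2 : ℕ) : Fin (k + 3))

lemma gv_succ {k : ℕ} (v : Fin (k + 3)) (i : ℕ) : gv v i + 1 = gv v (i + 1) := by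
  unfold gv; push_cast; ring

lemma cast_inj {k i j : ℕ} (hi : i < k + 3) (hj : j < k + 3)
    (h : ((i : ℕ) : Fin (k + 3)) = ((j : ℕ) : Fin (k + 3))) : i = j := by
  have h1 := congrArg Fin.val h
  rwa [Fin.val_natCast, Fin.val_natCast, Nat.mod_eq_of_lt hi, Nat.mod_eq_of_lt hj] at h1

lemma gv_inj {k : ℕ} (v : Fin (k + 3)) {i j : ℕ} (hi : i < k) (hj : j < k)
    (h : gv v i = gv v j) : i = j := by
  have := cast_inj (by omega) (by omega) (add_left_cancel h)
  omega

lemma gv_ne {k : ℕ} (v : Fin (k + 3)) {i : ℕ} (hi : i < k) : gv v i ≠ v := by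
  intro h
  have h1 : v + ((i + 2 : ℕ) : Fin (k + 3)) = v + ((0 : ℕ) : Fin (k + 3)) := by
    rw [Nat.cast_zero, add_zero]; exact h
  have := cast_inj (by omega) (by omega) (add_left_cancel h1)
  omega

lemma exists_gv {k : ℕ} (v w : Fin (k + 3)) (h0 : w ≠ v) (h1 : w ≠ v + 1) (h2 : w + 1 ≠ v) :
    ∃ i, i < k ∧ gv v i = w := by
  have hw : w = v + (((w - v).val : ℕ) : Fin (k + 3)) := by
    rw [Fin.cast_val_eq_self]; ring
  have hlt := (w - v).isLt
  set d := (w - v).val with hd
  have hd0 : d ≠ 0 := by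
    intro h; rw [h, Nat.cast_zero, add_zero] at hw; exact h0 hw
  have hd1 : d ≠ 1 := by
    intro h; rw [h, Nat.cast_one] at hw; exact h1 hw
  have hd2 : d ≠ k + 2 := by
    intro h; rw [h] at hw
    apply h2
    have h3 : w + 1 = v + ((k + 3 : ℕ) : Fin (k + 3)) := by
      conv_lhs => rw [hw]
      push_cast; ring
    rw [h3, Fin.natCast_self, add_zero]
  refine ⟨d - 2, by omega, ?_⟩
  unfold gv
  rw [show d - 2 + 2 = d by omega]
  exact hw.symm

noncomputable def shv {k : ℕ} (v : Fin (k + 3)) (s : Finset (Fin (k + 3))) : Finset ℕ :=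
  (Finset.range k).filter (fun i => gv v i ∈ s)

lemma mem_shv {k : ℕ} {v : Fin (k + 3)} {s : Finset (Fin (k + 3))} {i : ℕ} :
    i ∈ shv v s ↔ i < k ∧ gv v i ∈ s := by
  unfold shv; rw [Finset.mem_filter, Finset.mem_range]

lemma mem_iff_shv {k : ℕ} {v : Fin (k + 3)} {s : Finset (Fin (k + 3))} (hs : s ∈ Qc k)
    (hv : v ∈ s) (w : Fin (k + 3)) : w ∈ s ↔ w = v ∨ ∃ i ∈ shv v s, gv v i = w := by
  rw [mem_Qc] at hs
  constructor
  · intro hw
    by_cases h0 : w = v
    · exact Or.inl h0
    · right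
      obtain ⟨i, hi, hg⟩ := exists_gv v w h0 (by rintro rfl; exact hs v hv hw)
        (by rintro rfl; exact hs w hw hv)
      exact ⟨i, mem_shv.mpr ⟨hi, by rw [hg]; exact hw⟩, hg⟩
  · rintro (rfl | ⟨i, hi, rfl⟩)
    · exact hv
    · exact (mem_shv.mp hi).2

lemma sub_of_shv {k : ℕ} {v : Fin (k + 3)} {s t : Finset (Fin (k + 3))} (hs : s ∈ Qc k)
    (hv : v ∈ s) (hv' : v ∈ t) (h : shv v s ⊆ shv v t) : s ⊆ t := by
  intro w hw
  rcases (mem_iff_shv hs hv w).mp hw with rfl | ⟨i, hi, rfl⟩
  · exact hv'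
  · exact (mem_shv.mp (h hi)).2

noncomputable def star {k : ℕ} (𝓕 : Finset (Finset (Fin (k + 3)))) (v : Fin (k + 3)) :
    Finset (Finset (Fin (k + 3))) := 𝓕.filter (fun s => v ∈ s)

lemma mem_star {k : ℕ} {𝓕 : Finset (Finset (Fin (k + 3)))} {v : Fin (k + 3)}
    {s : Finset (Fin (k + 3))} : s ∈ star 𝓕 v ↔ s ∈ 𝓕 ∧ v ∈ s := by
  unfold star; exact Finset.mem_filter

lemma card_shv {k : ℕ} {v : Fin (k + 3)} {s : Finset (Fin (k + 3))} (hs : s ∈ Qc k)
    (hv : v ∈ s) : (shv v s).card + 1 = s.card := by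
  have h1 : (shv v s).image (gv v) = s.erase v := by
    ext w
    rw [Finset.mem_image, Finset.mem_erase]
    constructor
    · rintro ⟨i, hi, rfl⟩
      exact ⟨gv_ne v (mem_shv.mp hi).1, (mem_shv.mp hi).2⟩
    · rintro ⟨h0, hw⟩
      rcases (mem_iff_shv hs hv w).mp hw with h | h
      · exact absurd h h0
      · exact h
  have h2 : ((shv v s).image (gv v)).card = (shv v s).card := by
    apply Finset.card_image_of_injOn
    intro i hi j hj hij
    exact gv_inj v (mem_shv.mp hi).1 (mem_shv.mp hj).1 hij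
  rw [← h2, h1, Finset.card_erase_of_mem hv]
  have : 0 < s.card := Finset.card_pos.mpr ⟨v, hv⟩
  omega

lemma image_shv (k r : ℕ) (v : Fin (k + 3)) (t : Finset ℕ) :
    t ∈ PI k r ↔ ∃ s ∈ star (lev (Qc k) (r + 1)) v, shv v s = t := by
  rw [mem_PI]
  symm
  constructor
  · rintro ⟨s, hs, rfl⟩
    obtain ⟨hs1, hv⟩ := mem_star.mp hs
    obtain ⟨h1, h2⟩ := mem_lev.mp hs1
    have h3 := card_shv h1 hv
    refine ⟨by omega, fun i _ => Nat.zero_le _, ?_, ?_⟩
    · intro i hi
      have := (mem_shv.mp hi).1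
      omega
    · intro i hi hi'
      have h4 := (mem_shv.mp hi).2
      have h5 := (mem_shv.mp hi').2
      rw [← gv_succ] at h5
      exact mem_Qc.mp h1 _ h4 h5
  · intro hg
    have hlt : ∀ i ∈ t, i < k := by
      intro i hi; have := hg.ub i hi; omega
    set s : Finset (Fin (k + 3)) := insert v (t.image (gv v)) with hs
    have hvs : v ∈ s := Finset.mem_insert_self _ _
    have hsQ : s ∈ Qc k := by
      rw [mem_Qc]
      intro w hw hw'
      rw [hs, Finset.mem_insert, Finset.mem_image] at hw hw'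
      rcases hw with rfl | ⟨i, hi, rfl⟩
      · rcases hw' with h | ⟨j, hj, h⟩
        · have h2 : w + ((1 : ℕ) : Fin (k + 3)) = w + ((0 : ℕ) : Fin (k + 3)) := by
            rw [Nat.cast_one, Nat.cast_zero, add_zero]; exact h
          have := cast_inj (by omega) (by omega) (add_left_cancel h2)
          omega
        · have hj' := hlt j hj
          have h2 : w + ((j + 2 : ℕ) : Fin (k + 3)) = w + ((1 : ℕ) : Fin (k + 3)) := by
            rw [Nat.cast_one]; exact h
          have := cast_inj (by omega) (by omega) (add_left_cancel h2)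
          omega
      · have hi' := hlt i hi
        rcases hw' with h | ⟨j, hj, h⟩
        · rw [gv_succ] at h
          have h2 : v + ((i + 1 + 2 : ℕ) : Fin (k + 3)) = v + ((0 : ℕ) : Fin (k + 3)) := by
            rw [Nat.cast_zero, add_zero]; exact h
          have := cast_inj (by omega) (by omega) (add_left_cancel h2)
          omega
        · have hj' := hlt j hj
          rw [gv_succ] at h
          have h2 := cast_inj (by omega) (by omega) (add_left_cancel h)
          have h3 : j = i + 1 := by omega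
          exact hg.ind i hi (h3 ▸ hj)
    have hsh : shv v s = t := by
      ext i
      rw [mem_shv, hs, Finset.mem_insert, Finset.mem_image]
      constructor
      · rintro ⟨hi, h | ⟨j, hj, h⟩⟩
        · exact absurd h (gv_ne v hi)
        · have := gv_inj v (hlt j hj) hi h
          exact this ▸ hj
      · intro hi
        exact ⟨hlt i hi, Or.inr ⟨i, hi, rfl⟩⟩
    refine ⟨s, mem_star.mpr ⟨mem_lev.mpr ⟨hsQ, ?_⟩, hvs⟩, hsh⟩
    have := card_shv hsQ hvs
    rw [hsh, hg.card] at this
    omega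

lemma sum_star {k : ℕ} (r : ℕ) (𝓕 : Finset (Finset (Fin (k + 3)))) (h : 𝓕 ⊆ lev (Qc k) r) :
    ∑ v : Fin (k + 3), (star 𝓕 v).card = 𝓕.card * r := by
  have h1 := Finset.sum_card_bipartiteAbove_eq_sum_card_bipartiteBelow
    (fun (v : Fin (k + 3)) (s : Finset (Fin (k + 3))) => v ∈ s) (s := Finset.univ) (t := 𝓕)
  have h2 : ∀ v : Fin (k + 3), (star 𝓕 v).card =
      (Finset.bipartiteAbove (fun (v : Fin (k + 3)) (s : Finset (Fin (k + 3))) => v ∈ s) 𝓕 v).card := by
    intro v
    refine congrArg Finset.card ?_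
    ext s
    rw [mem_star, Finset.mem_bipartiteAbove]
  have h3 : ∀ s ∈ 𝓕, (Finset.bipartiteBelow
      (fun (v : Fin (k + 3)) (s : Finset (Fin (k + 3))) => v ∈ s) Finset.univ s).card = r := by
    intro s hs
    rw [← (mem_lev.mp (h hs)).2]
    refine congrArg Finset.card ?_
    ext v
    rw [Finset.mem_bipartiteBelow]
    simp
  rw [Finset.sum_congr rfl (fun v _ => h2 v), h1, Finset.sum_congr rfl h3, Finset.sum_const,
    smul_eq_mul]

lemma cycleNMP (k r : ℕ) (h : 3 * r + 1 ≤ k) :
    ∃ c : ℚ, 0 < c ∧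
      (∀ 𝓕 ⊆ lev (Qc k) (r + 1), (𝓕.card : ℚ) ≤ c * (upS (lev (Qc k) (r + 2)) 𝓕).card) ∧
      ((lev (Qc k) (r + 1)).card : ℚ) = c * (lev (Qc k) (r + 2)).card := by
  obtain ⟨c, hc, h1, h2⟩ := pathNMP k r h
  have key : ∀ v : Fin (k + 3),
      (∀ 𝓕 ⊆ star (lev (Qc k) (r + 1)) v,
        (𝓕.card : ℚ) ≤ c * (upS (star (lev (Qc k) (r + 2)) v) 𝓕).card) ∧
      ((star (lev (Qc k) (r + 1)) v).card : ℚ) = c * (star (lev (Qc k) (r + 2)) v).card := by
    intro v
    have hsub : ∀ a b : ℕ, ∀ s ∈ star (lev (Qc k) a) v, ∀ t ∈ star (lev (Qc k) b) v,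
        shv v s ⊆ shv v t → s ⊆ t := by
      intro a b s hs t ht hst
      obtain ⟨hs1, hs2⟩ := mem_star.mp hs
      exact sub_of_shv (mem_lev.mp hs1).1 hs2 (mem_star.mp ht).2 hst
    have hinj : ∀ a : ℕ, Set.InjOn (shv v) (star (lev (Qc k) a) v : Set (Finset (Fin (k + 3)))) := by
      intro a s hs t ht hst
      exact Finset.Subset.antisymm (hsub a a s hs t ht hst.subset) (hsub a a t ht s hs hst.symm.subset)
    exact transfer (shv v) (hinj _) (hinj _) (image_shv k r v) (image_shv k (r + 1) v)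
      (hsub _ _) hc h1 h2
  refine ⟨c * (r + 2) / (r + 1), by positivity, ?_, ?_⟩
  · intro 𝓕 hF
    have h3 := sum_star (r + 1) 𝓕 hF
    have hU : upS (lev (Qc k) (r + 2)) 𝓕 ⊆ lev (Qc k) (r + 2) := by
      intro t ht; exact (mem_upS.mp ht).1
    have h4 := sum_star (r + 2) _ hU
    have h5 : ∀ v : Fin (k + 3), ((star 𝓕 v).card : ℚ) ≤
        c * (star (upS (lev (Qc k) (r + 2)) 𝓕) v).card := by
      intro v
      refine ((key v).1 (star 𝓕 v) ?_).trans ?_
      · intro s hs
        obtain ⟨hs1, hs2⟩ := mem_star.mp hs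
        exact mem_star.mpr ⟨hF hs1, hs2⟩
      · refine mul_le_mul_of_nonneg_left ?_ hc.le
        norm_cast
        refine Finset.card_le_card fun t ht => ?_
        obtain ⟨ht1, s, hs, hst⟩ := mem_upS.mp ht
        obtain ⟨ht2, ht3⟩ := mem_star.mp ht1
        exact mem_star.mpr ⟨mem_upS.mpr ⟨ht2, s, (mem_star.mp hs).1, hst⟩, ht3⟩
    have h6 : ((𝓕.card : ℚ) * (r + 1)) ≤
        c * ((upS (lev (Qc k) (r + 2)) 𝓕).card * (r + 2)) := by
      have h7 : ((∑ v : Fin (k + 3), (star 𝓕 v).card : ℕ) : ℚ) ≤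
          c * ((∑ v : Fin (k + 3), (star (upS (lev (Qc k) (r + 2)) 𝓕) v).card : ℕ) : ℚ) := by
        rw [Nat.cast_sum, Nat.cast_sum, Finset.mul_sum]
        exact Finset.sum_le_sum fun v _ => h5 v
      rw [h3, h4] at h7
      push_cast at h7
      exact h7
    rw [div_mul_eq_mul_div, le_div_iff₀ (by positivity)]
    linarith [h6]
  · have h3 := sum_star (r + 1) (lev (Qc k) (r + 1)) (Finset.Subset.refl _)
    have h4 := sum_star (r + 2) (lev (Qc k) (r + 2)) (Finset.Subset.refl _)
    have h7 : ((∑ v : Fin (k + 3), (star (lev (Qc k) (r + 1)) v).card : ℕ) : ℚ) =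
        c * ((∑ v : Fin (k + 3), (star (lev (Qc k) (r + 2)) v).card : ℕ) : ℚ) := by
      rw [Nat.cast_sum, Nat.cast_sum, Finset.mul_sum]
      exact Finset.sum_congr rfl fun v _ => (key v).2
    rw [h3, h4] at h7
    push_cast at h7
    rw [div_mul_eq_mul_div, eq_div_iff (by positivity)]
    linarith [h7]

lemma lev_zero {k : ℕ} : lev (Qc k) 0 = {∅} := by
  ext s
  rw [mem_lev, Finset.mem_singleton, Finset.card_eq_zero]
  constructor
  · exact fun h => h.2
  · rintro rfl
    exact ⟨mem_Qc.mpr (by simp), rfl⟩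

lemma singleton_Qc {k : ℕ} (v : Fin (k + 3)) : ({v} : Finset (Fin (k + 3))) ∈ lev (Qc k) 1 := by
  rw [mem_lev, mem_Qc]
  refine ⟨?_, Finset.card_singleton v⟩
  intro i hi hi'
  rw [Finset.mem_singleton] at hi hi'
  subst hi
  have h2 : i + ((1 : ℕ) : Fin (k + 3)) = i + ((0 : ℕ) : Fin (k + 3)) := by
    rw [Nat.cast_one, Nat.cast_zero, add_zero]; exact hi'
  have := cast_inj (by omega) (by omega) (add_left_cancel h2)
  omega

theorem cycle_sperner (k : ℕ) (𝒜 : Finset (Finset (Fin (k + 3)))) (hQ : 𝒜 ⊆ Qc k)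
    (hA : IsAntichain (· ⊆ ·) (𝒜 : Set (Finset (Fin (k + 3))))) :
    ∃ r, 𝒜.card ≤ (lev (Qc k) r).card := by
  -- the critical level
  have hex : ∃ r, k + 3 ≤ 3 * r + 2 := ⟨k + 3, by omega⟩
  refine sperner_of (Qc k) (Nat.find hex) ?_ ?_ ?_ 𝒜 hQ hA
  · exact ⟨∅, mem_lev.mpr ⟨mem_Qc.mpr (by simp), by simp⟩⟩
  · intro r hr
    have h1 := Nat.find_min hex hr
    rcases r with _ | r
    · have hpos : 0 < ((lev (Qc k) 1).card : ℚ) := by
        have : 0 < (lev (Qc k) 1).card := Finset.card_pos.mpr ⟨{0}, singleton_Qc 0⟩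
        exact_mod_cast this
      refine ⟨1 / (lev (Qc k) 1).card, by positivity, ?_, ?_⟩
      · intro 𝓕 hF
        rw [lev_zero] at hF
        rcases Finset.subset_singleton_iff.mp hF with rfl | rfl
        · rw [Finset.card_empty, Nat.cast_zero]
          positivity
        · have : upS (lev (Qc k) 1) {∅} = lev (Qc k) 1 := by
            ext t
            rw [mem_upS]
            constructor
            · exact fun h => h.1
            · exact fun h => ⟨h, ∅, Finset.mem_singleton_self _, Finset.empty_subset _⟩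
          rw [zero_add, this, Finset.card_singleton, one_div, inv_mul_cancel₀ hpos.ne']
          simp
      · rw [zero_add, lev_zero, Finset.card_singleton, one_div, inv_mul_cancel₀ hpos.ne']
        simp
    · exact cycleNMP k r (by omega)
  · intro r hr
    have h1 : k + 3 ≤ 3 * r + 2 := le_trans (Nat.find_spec hex) (by omega)
    refine shadow_of_degree (Qc k) (Qc_down k) r
      (fun A => Finset.univ.filter (fun v => v ∉ A ∧ ∃ t ∈ Qc k, A ⊆ t ∧ v ∈ t)) ?_ ?_
    · intro A _ t ht hAt v hv hv'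
      exact Finset.mem_filter.mpr ⟨Finset.mem_univ _, hv', t, ht, hAt, hv⟩
    · intro A hA'
      obtain ⟨h2, h3⟩ := mem_lev.mp hA'
      rw [mem_Qc] at h2
      set V := Finset.univ.filter (fun v => v ∉ A ∧ ∃ t ∈ Qc k, A ⊆ t ∧ v ∈ t) with hV
      set M := Finset.univ \ (A ∪ A.image (· + 1)) with hM
      have hdisj : Disjoint A (A.image (· + 1)) := by
        rw [Finset.disjoint_left]
        intro i hi hi'
        obtain ⟨j, hj, hji⟩ := Finset.mem_image.mp hi'
        rw [← hji] at hi
        exact h2 j hj hi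
      have hMcard : M.card + 2 * r = k + 3 := by
        have h4 := Finset.card_sdiff_of_subset (Finset.subset_univ (A ∪ A.image (· + 1)))
        have h5 := Finset.card_le_card (Finset.subset_univ (A ∪ A.image (· + 1)))
        rw [Finset.card_union_of_disjoint hdisj, Finset.card_image_of_injective _
          (add_left_injective 1), h3, Finset.card_univ, Fintype.card_fin] at h4 h5
        rw [← hM] at h4
        omega
      have hAne : A.Nonempty := by
        rw [← Finset.card_pos, h3]; omega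
      obtain ⟨a, ha⟩ := hAne
      have hVsub : ∀ v ∈ V, v ∈ M ∧ v + 1 ∈ M := by
        intro v hv
        rw [hV, Finset.mem_filter] at hv
        obtain ⟨_, hv3, t, ht, hAt, hvt⟩ := hv
        rw [mem_Qc] at ht
        rw [hM]
        simp only [Finset.mem_sdiff, Finset.mem_univ, true_and, Finset.mem_union, Finset.mem_image,
          not_or, not_exists, not_and]
        refine ⟨⟨hv3, ?_⟩, ?_, ?_⟩
        · rintro j hj rfl
          exact ht j (hAt hj) hvt
        · intro h
          exact ht v hvt (hAt h)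
        · intro j hj hjv
          have : j = v := add_right_cancel hjv
          exact hv3 (this ▸ hj)
      rcases Finset.eq_empty_or_nonempty V with hemp | hne
      · rw [hemp]; simp
      · obtain ⟨v0, hv0⟩ := hne
        have hMne : M.Nonempty := ⟨v0, (hVsub v0 hv0).1⟩
        obtain ⟨w, hw, hwmax⟩ := Finset.exists_max_image M (fun w => (w - a).val) hMne
        have hwV : w ∉ V := by
          intro hwV
          have h6 := hwmax _ (hVsub w hwV).2
          have h7 : ((w + 1 - a).val : ℕ) ≤ (w - a).val := h6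
          -- the value must wrap around, so `w + 1 = a`
          have h8 : w + 1 - a = (w - a) + 1 := by ring
          rw [h8, Fin.val_add_one] at h7
          split_ifs at h7 with h9
          · have h10 : w + 1 = a := by
              have : w - a + 1 = 0 := by
                rw [h9]
                exact Fin.last_add_one (k + 2)
              have h11 : w + 1 = (w - a + 1) + a := by ring
              rw [h11, this, zero_add]
            have h12 := (hVsub w hwV).2
            rw [h10, hM, Finset.mem_sdiff, Finset.mem_union] at h12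
            exact h12.2 (Or.inl ha)
          · omega
        have hsub2 : V ⊆ M.erase w := by
          intro v hv
          rw [Finset.mem_erase]
          exact ⟨by rintro rfl; exact hwV hv, (hVsub v hv).1⟩
        have h6 := Finset.card_le_card hsub2
        rw [Finset.card_erase_of_mem hw] at h6
        omega

end Pool.Agent.Lib.MP5ae207
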