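import Mathlib
import Pool.Agent.Lib.MP_5ae207_co.Cycle

set_option autoImplicit false

namespace Pool.Agent.Lib.MP5ae207

open Classical
open Fin.CommRing

variable {α : Type*}

/-- The weighted LYM inequality for a family with the normalised matching property below the
level `r0` and non shrinking lower shadows above it. -/
theorem lym_full (Q : Finset (Finset α)) (r0 : ℕ) (h0 : (lev Q 0).Nonempty)
    (h1 : ∀ r < r0, ∃ c : ℚ, 0 < c ∧
      (∀ 𝓕 ⊆ lev Q r, (𝓕.card : ℚ) ≤ c * (upS (lev Q (r + 1)) 𝓕).card) ∧
      ((lev Q r).card : ℚ) = c * (lev Q (r + 1)).card)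
    (h2 : ∀ r, r0 ≤ r → ∀ 𝓖 ⊆ lev Q (r + 1), 𝓖.card ≤ (dnS (lev Q r) 𝓖).card) (k : ℕ) :
    ∀ 𝒜 : Finset (Finset α), 𝒜 ⊆ Q → IsAntichain (· ⊆ ·) (𝒜 : Set (Finset α)) →
      (∀ s ∈ 𝒜, s.card ≤ r0 + k) →
      ∑ s ∈ 𝒜, (1 : ℚ) / (lev Q (min s.card r0)).card ≤ 1 := by
  induction k with
  | zero =>
    intro 𝒜 hQ hA hs
    obtain ⟨hpos, hsum⟩ := lym Q r0 h0 h1 𝒜 hQ hA r0 (le_refl _)
    have hle1 : ((upS (lev Q r0) 𝒜).card : ℚ) / (lev Q r0).card ≤ 1 := by
      have hp : (0 : ℚ) < (lev Q r0).card := by exact_mod_cast hpos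
      rw [div_le_one hp]
      norm_cast
      exact Finset.card_le_card fun s hs => (mem_upS.mp hs).1
    refine le_trans (le_of_eq ?_) (hsum.trans hle1)
    rw [← Finset.sum_fiberwise_of_maps_to (s := 𝒜) (t := Finset.range (r0 + 1))
      (g := fun s : Finset α => s.card)]
    · refine Finset.sum_congr rfl fun i hi => ?_
      have hi' : i ≤ r0 := by simpa [Nat.lt_succ_iff] using hi
      rw [Finset.sum_congr rfl (g := fun _ => (1 : ℚ) / (lev Q i).card)]
      · rw [Finset.sum_const, nsmul_eq_mul, mul_one_div]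
      · intro s hs'
        rw [(Finset.mem_filter.mp hs').2, min_eq_left hi']
    · intro s hs'
      have := hs s hs'
      exact Finset.mem_range.mpr (by omega)
  | succ k ih =>
    intro 𝒜 hQ hA hs
    set 𝓖 := 𝒜.filter (fun s => s.card = r0 + k + 1) with hG
    set 𝓡 := 𝒜.filter (fun s => ¬ s.card = r0 + k + 1) with hR
    have hGsub : 𝓖 ⊆ lev Q (r0 + k + 1) := by
      intro s hs'
      rw [hG, Finset.mem_filter] at hs'
      exact mem_lev.mpr ⟨hQ hs'.1, hs'.2⟩
    have hcard := h2 (r0 + k) (by omega) 𝓖 hGsub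
    set 𝓓 := dnS (lev Q (r0 + k)) 𝓖 with hD
    have hdisj : Disjoint 𝓡 𝓓 := by
      rw [Finset.disjoint_left]
      intro s h3 h4
      rw [hR, Finset.mem_filter] at h3
      obtain ⟨h5, t, ht, hst⟩ := mem_dnS.mp h4
      rw [hG, Finset.mem_filter] at ht
      have hne : s ≠ t := by
        rintro rfl
        exact h3.2 ht.2
      exact hA (Finset.mem_coe.mpr h3.1) (Finset.mem_coe.mpr ht.1) hne hst
    have hQ' : 𝓡 ∪ 𝓓 ⊆ Q := by
      intro s h3
      rcases Finset.mem_union.mp h3 with h3 | h3
      · exact hQ (Finset.mem_filter.mp h3).1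
      · exact (mem_lev.mp (mem_dnS.mp h3).1).1
    have hsz : ∀ s ∈ 𝓡 ∪ 𝓓, s.card ≤ r0 + k := by
      intro s h3
      rcases Finset.mem_union.mp h3 with h3 | h3
      · rw [hR, Finset.mem_filter] at h3
        have := hs s h3.1
        have := h3.2
        omega
      · have := (mem_lev.mp (mem_dnS.mp h3).1).2
        omega
    have hanti : IsAntichain (· ⊆ ·) ((𝓡 ∪ 𝓓 : Finset (Finset α)) : Set (Finset α)) := by
      intro s h3 t h4 hne hst
      rcases Finset.mem_union.mp (Finset.mem_coe.mp h3) with h3' | h3'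
      · rcases Finset.mem_union.mp (Finset.mem_coe.mp h4) with h4' | h4'
        · rw [hR, Finset.mem_filter] at h3' h4'
          exact hA (Finset.mem_coe.mpr h3'.1) (Finset.mem_coe.mpr h4'.1) hne hst
        · obtain ⟨h5, u, hu, htu⟩ := mem_dnS.mp h4'
          rw [hG, Finset.mem_filter] at hu
          rw [hR, Finset.mem_filter] at h3'
          have hne' : s ≠ u := by rintro rfl; exact h3'.2 hu.2
          exact hA (Finset.mem_coe.mpr h3'.1) (Finset.mem_coe.mpr hu.1) hne' (hst.trans htu)
      · have h5 := (mem_lev.mp (mem_dnS.mp h3').1).2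
        have h6 := hsz t (Finset.mem_coe.mp h4)
        have h7 := Finset.eq_of_subset_of_card_le hst (by omega)
        exact hne h7
    have hfin := ih (𝓡 ∪ 𝓓) hQ' hanti hsz
    rw [Finset.sum_union hdisj] at hfin
    have hsplit : ∑ s ∈ 𝒜, (1 : ℚ) / (lev Q (min s.card r0)).card =
        ∑ s ∈ 𝓖, (1 : ℚ) / (lev Q (min s.card r0)).card +
        ∑ s ∈ 𝓡, (1 : ℚ) / (lev Q (min s.card r0)).card := by
      rw [hG, hR, Finset.sum_filter_add_sum_filter_not]
    have hgsum : ∑ s ∈ 𝓖, (1 : ℚ) / (lev Q (min s.card r0)).card =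
        𝓖.card * ((1 : ℚ) / (lev Q r0).card) := by
      rw [Finset.sum_congr rfl (g := fun _ => (1 : ℚ) / (lev Q r0).card)]
      · rw [Finset.sum_const, nsmul_eq_mul]
      · intro s hs'
        rw [(mem_lev.mp (hGsub hs')).2, min_eq_right (by omega)]
    have hdsum : ∑ s ∈ 𝓓, (1 : ℚ) / (lev Q (min s.card r0)).card =
        𝓓.card * ((1 : ℚ) / (lev Q r0).card) := by
      rw [Finset.sum_congr rfl (g := fun _ => (1 : ℚ) / (lev Q r0).card)]
      · rw [Finset.sum_const, nsmul_eq_mul]
      · intro s hs'
        rw [(mem_lev.mp (mem_dnS.mp hs').1).2, min_eq_right (by omega)]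
    rw [hdsum] at hfin
    rw [hsplit, hgsum]
    have hmono : (𝓖.card : ℚ) * ((1 : ℚ) / (lev Q r0).card) ≤
        𝓓.card * ((1 : ℚ) / (lev Q r0).card) := by
      refine mul_le_mul_of_nonneg_right ?_ (by positivity)
      exact_mod_cast hcard
    linarith

theorem path_lym (n : ℕ) (𝒜 : Finset (Finset (Fin n))) (hQ : 𝒜 ⊆ Qp n)
    (hA : IsAntichain (· ⊆ ·) (𝒜 : Set (Finset (Fin n)))) :
    ∑ s ∈ 𝒜, (1 : ℚ) / (lev (Qp n) (min s.card ((n + 1) / 3))).card ≤ 1 := by
  refine lym_full (Qp n) ((n + 1) / 3) ?_ ?_ ?_ (𝒜.sup Finset.card) 𝒜 hQ hA (by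
    intro s hs
    have := Finset.le_sup (f := Finset.card) hs
    omega)
  · exact ⟨∅, mem_lev.mpr ⟨mem_Qp.mpr (by simp), by simp⟩⟩
  · intro r hr
    obtain ⟨c, hc, h2, h3⟩ := pathNMP n r (by omega)
    refine ⟨c, hc, ?_⟩
    exact transfer emb emb_inj.injOn emb_inj.injOn (image_emb n r) (image_emb n (r + 1))
      (fun s _ t _ hst => by
        intro i hi
        exact emb_val.mp (hst (emb_val.mpr hi))) hc h2 h3
  · intro r hr
    have h1 : n ≤ 3 * r + 1 := by omega
    refine shadow_of_degree (Qp n) (Qp_down n) r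
      (fun A => Finset.univ.filter (fun v => v ∉ A ∧ ∃ t ∈ Qp n, A ⊆ t ∧ v ∈ t)) ?_ ?_
    · intro A _ t ht hAt v hv hv'
      exact Finset.mem_filter.mpr ⟨Finset.mem_univ _, hv', t, ht, hAt, hv⟩
    · intro A hA'
      obtain ⟨h2, h3⟩ := mem_lev.mp hA'
      rw [mem_Qp] at h2
      set V := Finset.univ.filter (fun v => v ∉ A ∧ ∃ t ∈ Qp n, A ⊆ t ∧ v ∈ t) with hV
      set V' := emb V with hV'
      have hcardV : V.card = V'.card := by rw [hV', emb, Finset.card_map]
      set A' := emb A with hA''
      have hcardA : A'.card = r := by rw [hA'', emb, Finset.card_map, h3]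
      set M := Finset.range (n + 1) \ (A' ∪ A'.image (· + 1)) with hM
      have hdisj : Disjoint A' (A'.image (· + 1)) := by
        rw [Finset.disjoint_left]
        intro i hi hi'
        obtain ⟨j, hj, hji⟩ := Finset.mem_image.mp hi'
        obtain ⟨hi1, hi2⟩ := mem_emb.mp hi
        obtain ⟨hj1, hj2⟩ := mem_emb.mp hj
        exact h2 _ hj2 _ hi2 hji
      have hMcard : M.card + 2 * r = n + 1 := by
        have hsub : A' ∪ A'.image (· + 1) ⊆ Finset.range (n + 1) := by
          intro i hi
          rw [Finset.mem_range]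
          rcases Finset.mem_union.mp hi with hi | hi
          · obtain ⟨hi1, _⟩ := mem_emb.mp hi; omega
          · obtain ⟨j, hj, rfl⟩ := Finset.mem_image.mp hi
            obtain ⟨hj1, _⟩ := mem_emb.mp hj; omega
        have h4 := Finset.card_sdiff_of_subset hsub
        have h5 := Finset.card_le_card hsub
        rw [Finset.card_union_of_disjoint hdisj, Finset.card_image_of_injective _
          (add_left_injective 1), hcardA, Finset.card_range] at h4 h5
        rw [← hM] at h4
        omega
      rw [hcardV]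
      rcases Finset.eq_empty_or_nonempty V' with hemp | hne
      · rw [hemp]; simp
      · have hVsub : ∀ v ∈ V', v ∈ M ∧ v + 1 ∈ M := by
          intro v hv
          obtain ⟨hv1, hv2⟩ := mem_emb.mp hv
          rw [hV, Finset.mem_filter] at hv2
          obtain ⟨_, hv3, t, ht, hAt, hvt⟩ := hv2
          rw [mem_Qp] at ht
          rw [hM]
          simp only [Finset.mem_sdiff, Finset.mem_range, Finset.mem_union, Finset.mem_image,
            not_or, not_exists, not_and]
          refine ⟨⟨by omega, ?_, ?_⟩, by omega, ?_, ?_⟩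
          · intro h; exact hv3 (mem_emb.mp h).2
          · intro j hj hjv
            obtain ⟨hj1, hj2⟩ := mem_emb.mp hj
            exact ht _ (hAt hj2) _ hvt hjv
          · intro h
            obtain ⟨hj1, hj2⟩ := mem_emb.mp h
            exact ht _ hvt _ (hAt hj2) rfl
          · intro j hj hjv
            obtain ⟨hj1, hj2⟩ := mem_emb.mp hj
            have : j = v := by omega
            subst this
            exact hv3 hj2
        obtain ⟨v0, hv0⟩ := hne
        have hMne : M.Nonempty := ⟨v0, (hVsub v0 hv0).1⟩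
        have hsub2 : V' ⊆ M.erase (M.max' hMne) := by
          intro v hv
          rw [Finset.mem_erase]
          refine ⟨?_, (hVsub v hv).1⟩
          rintro rfl
          have := Finset.le_max' M _ (hVsub _ hv).2
          omega
        have h6 := Finset.card_le_card hsub2
        rw [Finset.card_erase_of_mem (Finset.max'_mem M hMne)] at h6
        omega

theorem cycle_lym (k : ℕ) (𝒜 : Finset (Finset (Fin (k + 3)))) (hQ : 𝒜 ⊆ Qc k)
    (hA : IsAntichain (· ⊆ ·) (𝒜 : Set (Finset (Fin (k + 3))))) :
    ∑ s ∈ 𝒜, (1 : ℚ) / (lev (Qc k) (min s.card ((k + 3) / 3))).card ≤ 1 := by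
  refine lym_full (Qc k) ((k + 3) / 3) ?_ ?_ ?_ (𝒜.sup Finset.card) 𝒜 hQ hA (by
    intro s hs
    have := Finset.le_sup (f := Finset.card) hs
    omega)
  · exact ⟨∅, mem_lev.mpr ⟨mem_Qc.mpr (by simp), by simp⟩⟩
  · intro r hr
    rcases r with _ | r
    · have hpos : 0 < ((lev (Qc k) 1).card : ℚ) := by
        have : 0 < (lev (Qc k) 1).card := Finset.card_pos.mpr ⟨{0}, singleton_Qc 0⟩
        exact_mod_cast this
      refine ⟨1 / (lev (Qc k) 1).card, by positivity, ?_, ?_⟩
      · intro 𝓕 hF
        rw [lev_zero] at hF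
        rcases Finset.subset_singleton_iff.mp hF with rfl | rfl
        · rw [Finset.card_empty, Nat.cast_zero]
          positivity
        · have : upS (lev (Qc k) 1) {∅} = lev (Qc k) 1 := by
            ext t
            rw [mem_upS]
            constructor
            · exact fun h => h.1
            · exact fun h => ⟨h, ∅, Finset.mem_singleton_self _, Finset.empty_subset _⟩
          rw [zero_add, this, Finset.card_singleton, one_div, inv_mul_cancel₀ hpos.ne']
          simp
      · rw [zero_add, lev_zero, Finset.card_singleton, one_div, inv_mul_cancel₀ hpos.ne']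
        simp
    · exact cycleNMP k r (by omega)
  · intro r hr
    have h1 : k + 3 ≤ 3 * r + 2 := by omega
    refine shadow_of_degree (Qc k) (Qc_down k) r
      (fun A => Finset.univ.filter (fun v => v ∉ A ∧ ∃ t ∈ Qc k, A ⊆ t ∧ v ∈ t)) ?_ ?_
    · intro A _ t ht hAt v hv hv'
      exact Finset.mem_filter.mpr ⟨Finset.mem_univ _, hv', t, ht, hAt, hv⟩
    · intro A hA'
      obtain ⟨h2, h3⟩ := mem_lev.mp hA'
      rw [mem_Qc] at h2
      set V := Finset.univ.filter (fun v => v ∉ A ∧ ∃ t ∈ Qc k, A ⊆ t ∧ v ∈ t) with hV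
      set M := Finset.univ \ (A ∪ A.image (· + 1)) with hM
      have hdisj : Disjoint A (A.image (· + 1)) := by
        rw [Finset.disjoint_left]
        intro i hi hi'
        obtain ⟨j, hj, hji⟩ := Finset.mem_image.mp hi'
        rw [← hji] at hi
        exact h2 j hj hi
      have hMcard : M.card + 2 * r = k + 3 := by
        have h4 := Finset.card_sdiff_of_subset (Finset.subset_univ (A ∪ A.image (· + 1)))
        have h5 := Finset.card_le_card (Finset.subset_univ (A ∪ A.image (· + 1)))
        rw [Finset.card_union_of_disjoint hdisj, Finset.card_image_of_injective _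
          (add_left_injective 1), h3, Finset.card_univ, Fintype.card_fin] at h4 h5
        rw [← hM] at h4
        omega
      have hAne : A.Nonempty := by
        rw [← Finset.card_pos, h3]; omega
      obtain ⟨a, ha⟩ := hAne
      have hVsub : ∀ v ∈ V, v ∈ M ∧ v + 1 ∈ M := by
        intro v hv
        rw [hV, Finset.mem_filter] at hv
        obtain ⟨_, hv3, t, ht, hAt, hvt⟩ := hv
        rw [mem_Qc] at ht
        rw [hM]
        simp only [Finset.mem_sdiff, Finset.mem_univ, true_and, Finset.mem_union, Finset.mem_image,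
          not_or, not_exists, not_and]
        refine ⟨⟨hv3, ?_⟩, ?_, ?_⟩
        · rintro j hj rfl
          exact ht j (hAt hj) hvt
        · intro h
          exact ht v hvt (hAt h)
        · intro j hj hjv
          have : j = v := add_right_cancel hjv
          exact hv3 (this ▸ hj)
      rcases Finset.eq_empty_or_nonempty V with hemp | hne
      · rw [hemp]; simp
      · obtain ⟨v0, hv0⟩ := hne
        have hMne : M.Nonempty := ⟨v0, (hVsub v0 hv0).1⟩
        obtain ⟨w, hw, hwmax⟩ := Finset.exists_max_image M (fun w => (w - a).val) hMne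
        have hwV : w ∉ V := by
          intro hwV
          have h6 := hwmax _ (hVsub w hwV).2
          have h7 : ((w + 1 - a).val : ℕ) ≤ (w - a).val := h6
          -- the value must wrap around, so `w + 1 = a`
          have h8 : w + 1 - a = (w - a) + 1 := by ring
          rw [h8, Fin.val_add_one] at h7
          split_ifs at h7 with h9
          · have h10 : w + 1 = a := by
              have : w - a + 1 = 0 := by
                rw [h9]
                exact Fin.last_add_one (k + 2)
              have h11 : w + 1 = (w - a + 1) + a := by ring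
              rw [h11, this, zero_add]
            have h12 := (hVsub w hwV).2
            rw [h10, hM, Finset.mem_sdiff, Finset.mem_union] at h12
            exact h12.2 (Or.inl ha)
          · omega
        have hsub2 : V ⊆ M.erase w := by
          intro v hv
          rw [Finset.mem_erase]
          exact ⟨by rintro rfl; exact hwV hv, (hVsub v hv).1⟩
        have h6 := Finset.card_le_card hsub2
        rw [Finset.card_erase_of_mem hw] at h6
        omega

end Pool.Agent.Lib.MP5ae207
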